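import Pool.Agent.helper74.VQ.SpecC
import Pool.Agent.helper11.VQ.Spec3b
import Pool.Agent.helper62.VQ.SpecF
import Pool.Agent.helper58.CRO.SpecA

/-!
# Project VQ (MP_07c750_an, quantum unique ergodicity, weight 10), block FL: THE FLOW (existence, symmetries, Gronwall, invariance of the measure, `C¹` dependence), rows `vq:X`

VERSION 2 (21:50): GENERAL POTENTIALS (`Pg Γ e B U`: `U ≥ 4 e`, all derivatives bounded by `B`; energies `|E| ≤ e`; no smallness), so that everything is proved only once for VQ (`e = 1/8`, row PGV) and VN.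
FINAL ROWS (used by the other blocks): `IDY` (= `IDY_stmt` of Spec3i: existence of the dynamics), `FLB` (= `FLB_stmt` of Spec3b), `FLG` (= `FLG_stmt` of Spec3b), `HFA`, `HFM`, `HFG` (= `HFA_stmt`, `HFM_stmt`, `HFG_stmt` of SpecC), `FFL` (= `VQE.FFL_stmt` of SpecF), `FLC` (`C¹` dependence, used in block 4c).

IDEA. `SL(2, ℝ)` is the set `dt4 = 1` of the space `F4 = Fin 4 → ℝ` of the matrices. The fields `rho`, `kap` are extended to smooth bounded functions `ρ`, `κ` of `F4 × ℝ` (the last coordinate is the energy), homogeneous of degree `0` near `SL(2, ℝ)` (`Ex4`). The vector field `f4 ρ κ (x, E) = (x (ρ A0 + κ K0), 0)` is smooth with linear growth,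
so it has a global `C¹` flow `Φ` (row GFL, from the rows of project CRO), `dt4` and `E` are constant along it (`ρ A0 + κ K0` is traceless), and the flow of `Dyn` is its restriction to `SL(2, ℝ)` (`Fw4`).

RULES. Row `vq:XXX`: file `Pool/Agent/<seat>/VQ/XXX.lean`, `import Pool.Agent.helper80.VQ.SpecFL`, `set_option autoImplicit false`, namespace `Pool.Agent.VQ`, `open Pool.Agent.RS`, `open Pool.Agent.VQE (nm)`, auxiliary lemmas prefixed `XXX_`,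
theorem `XXX_proof (h..) : XXX_stmt` (rows listed in `from` may be used as hypotheses `(h : YYY_stmt)`; the rows of the other specs of VQ, VQE likewise; rows of QU, RS are proved: `import Pool.Agent.helper11.RPQ.All` gives `Pool.Agent.RS.A_GMG`, `A_GLI`, ...;
rows of CRO: `import Pool.Agent.helper16.CRO.CFL` etc. give `Pool.Agent.CRO.CFL (h1 : FLX_stmt) (h2 : LIN_stmt) (h3 : DIF_stmt) (h4 : DCT_stmt) : CFL_stmt`, `Pool.Agent.CRO.FLX : FLX_stmt`, `LIN`, `DIF`, `DCT`). No `convert`, `congr!`, `native_decide`, no double quotes, no `private`.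
-/

open scoped MatrixGroups ContDiff Topology UpperHalfPlane ComplexConjugate ENNReal
open UpperHalfPlane MeasureTheory Filter Set

namespace Pool.Agent.VQ

open Pool.Agent.RS
open Pool.Agent.VQE (nm)

noncomputable section

/-- the matrices -/
abbrev F4 : Type := Fin 4 → ℝ

/-- the entries of `g` -/
def m4 (g : SL(2, ℝ)) : F4 := ![g.1 0 0, g.1 0 1, g.1 1 0, g.1 1 1]

/-- the determinant -/
def dt4 (x : F4) : ℝ := x 0 * x 3 - x 1 * x 2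

/-- the product `x * [[p, q], [r, -p]]` -/
def mu4 (x : F4) (p q r : ℝ) : F4 := ![x 0 * p + x 1 * r, x 0 * q - x 1 * p, x 2 * p + x 3 * r, x 2 * q - x 3 * p]

/-- the product `g * x` -/
def lm4 (g : SL(2, ℝ)) (x : F4) : F4 := ![g.1 0 0 * x 0 + g.1 0 1 * x 2, g.1 0 0 * x 1 + g.1 0 1 * x 3, g.1 1 0 * x 0 + g.1 1 1 * x 2, g.1 1 0 * x 1 + g.1 1 1 * x 3]

/-- the vector field `(x, E) ↦ (x (ρ A0 + κ K0), 0)` -/
def f4 (ρ κ : F4 × ℝ → ℝ) (y : F4 × ℝ) : F4 × ℝ := (mu4 y.1 (ρ y / 2) (κ y / 2) (-(κ y / 2)), 0)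

/-- GENERAL POTENTIALS: `U ≥ 4 e`, all derivatives bounded -/
structure Pg (Γ : Subgroup SL(2, ℝ)) (e : ℝ) (B : ℕ → ℝ) (U : ℍ → ℝ) : Prop where
  pos : 0 < e
  smooth : QU.CD ∞ U
  inv : QU.Inv Γ U
  lo : ∀ z, 4 * e ≤ U z
  bd : ∀ (g : SL(2, ℝ)) (v : ℂ), ‖v‖ ≤ 1 → ∀ n, ‖iteratedFDeriv ℝ n (Ug U g) v‖ ≤ B n

/-- the dynamics for a general potential and the energies `|E| ≤ e` (the fields are those of `OKD` with `e` instead of `1/8`) -/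
structure OKG (Γ : Subgroup SL(2, ℝ)) (e : ℝ) (B : ℕ → ℝ) (D : Dyn) : Prop where
  pot : Pg Γ e B D.U
  fl0 : ∀ E g, D.fl E 0 g = g
  out : ∀ E t g, e < |E| → D.fl E t g = g ∧ D.Y E t g = 1 ∧ D.P E t g = Complex.I • 1 ∧ D.S E t g = 0 ∧ D.a E t g = 1
  dfl : ∀ E t g, |E| ≤ e → ∀ i j, HasDerivAt (fun s => (D.fl E s g).1 i j) (((D.fl E t g).1 * XX D.U E (D.fl E t g)) i j) t
  cfl : ContinuousOn (fun p : ℝ × ℝ × SL(2, ℝ) => D.fl p.1 p.2.1 p.2.2) {p | |p.1| ≤ e}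
  Y0 : ∀ E g, D.Y E 0 g = 1
  P0 : ∀ E g, D.P E 0 g = Complex.I • 1
  S0 : ∀ E g, D.S E 0 g = 0
  a0 : ∀ E g, D.a E 0 g = 1
  dY : ∀ E t g, |E| ≤ e → ∀ i j, HasDerivAt (fun s => D.Y E s g i j)
    ((D.P E t g + ((kap D.U E (D.fl E t g) : ℝ) : ℂ) • (JJ * D.Y E t g)) i j) t
  dP : ∀ E t g, |E| ≤ e → ∀ i j, HasDerivAt (fun s => D.P E s g i j)
    ((KK D.U E (D.fl E t g) * D.Y E t g + ((kap D.U E (D.fl E t g) : ℝ) : ℂ) • (JJ * D.P E t g)) i j) t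
  dS : ∀ E t g, |E| ≤ e → HasDerivAt (fun s => D.S E s g) ((rho D.U E (D.fl E t g) ^ 2 + D.U (D.fl E t g • I)) / 2) t
  da : ∀ E t g, |E| ≤ e → HasDerivAt (fun s => D.a E s g) (-(1 / 2) * Matrix.trace (D.M E t g) * D.a E t g) t
  cY : ∀ i j, ContinuousOn (fun p : ℝ × ℝ × SL(2, ℝ) => D.Y p.1 p.2.1 p.2.2 i j) {p | |p.1| ≤ e}
  cP : ∀ i j, ContinuousOn (fun p : ℝ × ℝ × SL(2, ℝ) => D.P p.1 p.2.1 p.2.2 i j) {p | |p.1| ≤ e}
  cS : ContinuousOn (fun p : ℝ × ℝ × SL(2, ℝ) => D.S p.1 p.2.1 p.2.2) {p | |p.1| ≤ e}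
  ca : ContinuousOn (fun p : ℝ × ℝ × SL(2, ℝ) => D.a p.1 p.2.1 p.2.2) {p | |p.1| ≤ e}

/-- the bounds of the derivatives for the potentials of VQ -/
def Bx (B : ℕ → ℝ) (n : ℕ) : ℝ := if n ≤ 3 then 11 / 10 else B n

/-- smooth extensions of `rho U`, `kap U` -/
structure Ex4 (e C : ℝ) (U : ℍ → ℝ) (ρ κ : F4 × ℝ → ℝ) : Prop where
  sr : ContDiff ℝ ∞ ρ
  sk : ContDiff ℝ ∞ κ
  bd : ∀ y, |ρ y| ≤ C ∧ |κ y| ≤ C
  eq : ∀ (E l : ℝ) (g : SL(2, ℝ)), |E| ≤ e → 9 / 10 ≤ l → l ≤ 11 / 10 → ρ (l • m4 g, E) = rho U E g ∧ κ (l • m4 g, E) = kap U E g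

/-- `Φ` is the `C¹` flow of `f4 ρ κ`, the flow `fl` is its restriction to `SL(2, ℝ)` -/
structure Fw4 (e C : ℝ) (U : ℍ → ℝ) (fl : ℝ → ℝ → SL(2, ℝ) → SL(2, ℝ)) (ρ κ : F4 × ℝ → ℝ) (Φ : ℝ → F4 × ℝ → F4 × ℝ) : Prop where
  ex : Ex4 e C U ρ κ
  flow : CRO.IsC1Flow (f4 ρ κ) Φ
  un : ∀ x : ℝ → F4 × ℝ, (∀ t, HasDerivAt x (f4 ρ κ (x t)) t) → ∀ t, x t = Φ t (x 0)
  dt : ∀ (t : ℝ) (y : F4 × ℝ), (Φ t y).2 = y.2 ∧ dt4 (Φ t y).1 = dt4 y.1
  eq : ∀ (E t : ℝ) (g : SL(2, ℝ)), |E| ≤ e → Φ t (m4 g, E) = (m4 (fl E t g), E)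

/-! ## 1. Pure rows -/

/-- **Row GFL** (PURE; medium; from CRO.CFL: `C¹` flow of a compactly supported `C²` field). A-priori bound: if `x' = φ(x) f(x)`, `|φ| ≤ 1`, on an interval around `0`, then `1 + ‖x t‖ ≤ (1 + ‖x 0‖) e^(C|t|)` (Gronwall: `norm_le_gronwallBound_of_norm_deriv_right_le`; for negative times reverse the time).
Let `φ_n` be smooth with compact support, `0 ≤ φ_n ≤ 1`, `φ_n = 1` on the ball of radius `n` (`ContDiffBump`), `Φ_n` the flow of `φ_n f` (CFL). On the open set `O_n = {(t, x) | (1 + ‖x‖) e^(C|t|) < n}` the curve `Φ_n · x` stays in the ball of radius `n` between the times `0` and `t`, so `Φ_m t x = Φ_n t x` for `m ≥ n`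
(uniqueness: `ODE_solution_unique_of_mem_Icc` or Gronwall; `φ_m f` is globally Lipschitz). `Φ t x := Φ_n t x` for `n = ⌈(1 + ‖x‖) e^(C|t|)⌉₊ + 1`; all properties of `IsC1Flow` are local (`Φ = Φ_n` on `O_n`, also for the `x`-derivatives) except `add`, which follows from uniqueness. Last part: on `[-T, T]` the curve is bounded, so it solves the equation of `φ_n f` there. -/
def GFL_stmt : Prop := ∀ (F : Type) [NormedAddCommGroup F] [NormedSpace ℝ F] [FiniteDimensional ℝ F] (f : F → F) (C : ℝ), ContDiff ℝ 2 f → 0 ≤ C → (∀ x, ‖f x‖ ≤ C * (1 + ‖x‖)) →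
  ∃ Φ : ℝ → F → F, CRO.IsC1Flow f Φ ∧ ∀ x : ℝ → F, (∀ t, HasDerivAt x (f (x t)) t) → ∀ t, x t = Φ t (x 0)

/-- **Row LNP** (PURE; medium; from CRO.LIN: linear equations have global solutions). Linear equations with parameters: the solution is jointly continuous. At `(p0, t0)`, `T > |t0|`: `A p s → A p0 s` uniformly in `s ∈ [-T, T]` for `p → p0` (tube lemma / `IsCompact`), `Z = Y p - Y p0` satisfies `Z 0 = 0`, `Z' = A p Z + (A p - A p0) Y p0`: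
Gronwall (for negative times reverse the time). `‖Y p s - Y p0 t0‖ ≤ ‖Y p s - Y p0 s‖ + ‖Y p0 s - Y p0 t0‖`. -/
def LNP_stmt : Prop := ∀ (Λ : Type) [TopologicalSpace Λ] (F : Type) [NormedAddCommGroup F] [NormedSpace ℝ F] [FiniteDimensional ℝ F] (A : Λ → ℝ → F →L[ℝ] F), Continuous (fun q : Λ × ℝ => A q.1 q.2) →
  ∃ Y : Λ → ℝ → F →L[ℝ] F, (∀ p, Y p 0 = ContinuousLinearMap.id ℝ F) ∧ (∀ p t, HasDerivAt (Y p) ((A p t).comp (Y p t)) t) ∧ Continuous (fun q : Λ × ℝ => Y q.1 q.2)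

/-- **Row SAE** (PURE; short). `S p t = ∫_0^t s p`, `a p t = exp (∫_0^t m p)`; joint continuity: `intervalIntegral.continuous_parametric_primitive_of_continuous` or similar (or substitute `u = t v`, `v ∈ [0, 1]`). -/
def SAE_stmt : Prop := ∀ (Λ : Type) [TopologicalSpace Λ] [FirstCountableTopology Λ] (s : Λ → ℝ → ℝ) (m : Λ → ℝ → ℂ), Continuous (fun q : Λ × ℝ => s q.1 q.2) → Continuous (fun q : Λ × ℝ => m q.1 q.2) →
  (∃ S : Λ → ℝ → ℝ, (∀ p, S p 0 = 0) ∧ (∀ p t, HasDerivAt (S p) (s p t) t) ∧ Continuous (fun q : Λ × ℝ => S q.1 q.2)) ∧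
  ∃ a : Λ → ℝ → ℂ, (∀ p, a p 0 = 1) ∧ (∀ p t, HasDerivAt (a p) (m p t * a p t) t) ∧ Continuous (fun q : Λ × ℝ => a q.1 q.2)

/-- **Row DTN** (PURE; short-medium; compare row VYA). `W = Y* P - P* Y` (conjugate transposes): `W' = 0` (`K` real symmetric, `κ` real, `JJᵀ = -JJ`), so `W = W 0 = 2 i`. If `det (Y t) = 0` there is `x ≠ 0` with `Y x = 0` (`Matrix.exists_mulVec_eq_zero_iff`), then `0 = x* (Y* P - P* Y) x = 2 i |x|²`, a contradiction. -/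
def DTN_stmt : Prop := ∀ (κ : ℝ → ℝ) (K : ℝ → Matrix (Fin 2) (Fin 2) ℂ) (Y P : ℝ → Matrix (Fin 2) (Fin 2) ℂ), (∀ t, K t 0 1 = K t 1 0) → (∀ t i j, (K t i j).im = 0) → Y 0 = 1 → P 0 = Complex.I • 1 →
  (∀ t i j, HasDerivAt (fun s => Y s i j) ((P t + ((κ t : ℝ) : ℂ) • (JJ * Y t)) i j) t) → (∀ t i j, HasDerivAt (fun s => P s i j) ((K t * Y t + ((κ t : ℝ) : ℂ) • (JJ * P t)) i j) t) → ∀ t, (Y t).det ≠ 0

/-- **Row YPE** (PURE; short-medium; from LNP). LNP with `F = Matrix × Matrix` or `(Fin 2 → Fin 2 → ℂ) × (Fin 2 → Fin 2 → ℂ)` (sup norm), `A p t (Y, P) = (P + κ JJ Y, K Y + κ JJ P)`, applied to `(1, i)`. Joint continuity of `A`: it is a finite combination `κ • A1 + Σ K_ij • A_ij + A0` of fixed linear maps. -/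
def YPE_stmt : Prop := ∀ (Λ : Type) [TopologicalSpace Λ] (κ : Λ → ℝ → ℝ) (K : Λ → ℝ → Matrix (Fin 2) (Fin 2) ℂ), Continuous (fun q : Λ × ℝ => κ q.1 q.2) → (∀ i j, Continuous (fun q : Λ × ℝ => K q.1 q.2 i j)) →
  ∃ Y P : Λ → ℝ → Matrix (Fin 2) (Fin 2) ℂ, (∀ p, Y p 0 = 1 ∧ P p 0 = Complex.I • 1) ∧ (∀ p t i j, HasDerivAt (fun s => Y p s i j) ((P p t + ((κ p t : ℝ) : ℂ) • (JJ * Y p t)) i j) t) ∧
    (∀ p t i j, HasDerivAt (fun s => P p s i j) ((K p t * Y p t + ((κ p t : ℝ) : ℂ) • (JJ * P p t)) i j) t) ∧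
    (∀ i j, Continuous (fun q : Λ × ℝ => Y q.1 q.2 i j)) ∧ ∀ i j, Continuous (fun q : Λ × ℝ => P q.1 q.2 i j)

/-- **Row LDT** (PURE, Jacobi's formula; short-medium). `(Y t).det = Matrix.det (toMatrix' (Y t))` (`LinearMap.det_toMatrix'`), entries `y_ij`, `y' = a y` (matrix product). Leibniz formula `Matrix.det_apply` and the product rule (`HasDerivAt.finset_prod`): `det' = Σ_i det (updateRow y i (y' i))`, `y' i = Σ_k a_ik y k`, so `det (updateRow y i (y' i)) = a_ii det y`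
(`Matrix.det_updateRow_sum` or linearity and `det_updateRow_eq_zero`). Or: `Y (t+s) = (1 + s A + o(s)) Y t` and `det (1 + s A + o(s)) = 1 + s tr A + o(s)` for `4 × 4` matrices. -/
def LDT_stmt : Prop := ∀ (A Y : ℝ → F4 →L[ℝ] F4) (t : ℝ), HasDerivAt Y ((A t).comp (Y t)) t → HasDerivAt (fun s => (Y s).det) ((∑ i, A t (Pi.single i 1) i) * (Y t).det) t

/-- **Row LVP** (PURE, Liouville's theorem; short-medium; from LDT; copy `Pool/Agent/helper11/CRO/MPR.lean`). For `x ∈ S` the orbit stays in `S`, so `det (fderiv ℝ (Φ t) x)` has derivative `0` in `t` (LDT and `IsC1Flow.var`), it is `1` at `t = 0` (`Φ 0 = id`). `Φ t ⁻¹' A ⊆ S` (apply `Φ (-t)`), `lintegral_abs_det_fderiv_eq_addHaar_image` on `Φ t ⁻¹' A`. -/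
def LVP_stmt : Prop := ∀ (f : F4 → F4) (Φ : ℝ → F4 → F4) (S A : Set F4), CRO.IsC1Flow f Φ → (∀ t, ∀ x ∈ S, Φ t x ∈ S) → (∀ x ∈ S, ∑ i, fderiv ℝ f x (Pi.single i 1) i = 0) → MeasurableSet A → A ⊆ S → ∀ t, volume (Φ t ⁻¹' A) = volume A

/-! ## 2. The potentials, the extension of the fields -/

/-- **Row PGV** (VQ potentials are general potentials; short-medium). `Ug U g 0 = U (g • I)` (`cdi 0 = I`), every `z : ℍ` is `g • I`; `Pot.near` for `n = 0`: `|U - 1| ≤ δ ≤ 1/10`, so `1/2 ≤ U`; `‖iteratedFDeriv ℝ n (Ug U g) v‖ ≤ ‖iteratedFDeriv ℝ n (Ug U g - 1) v‖ + ‖iteratedFDeriv ℝ n 1 v‖ ≤ 11/10` for `n ≤ 3`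
(`Ug U g` is smooth near `v`: VCD and `QU.CD ∞ U`; or: `fderiv (f - 1) = fderiv f` as functions, so `iteratedFDeriv` agree for `n ≥ 1`). The other fields are copied. -/
def PGV_stmt : Prop := (∀ (Γ : Subgroup SL(2, ℝ)) (δ : ℝ) (B : ℕ → ℝ) (U : ℍ → ℝ), Pot Γ δ B U → δ ≤ 1 / 10 → Pg Γ (1 / 8) (Bx B) U) ∧
  (∀ (Γ : Subgroup SL(2, ℝ)) (δ : ℝ) (B : ℕ → ℝ) (D : Dyn), OKD Γ δ B D → δ ≤ 1 / 10 → OKG Γ (1 / 8) (Bx B) D) ∧
  ∀ (Γ : Subgroup SL(2, ℝ)) (δ : ℝ) (B : ℕ → ℝ) (D : Dyn), Pot Γ δ B D.U → OKG Γ (1 / 8) (Bx B) D → OKD Γ δ B D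

/-- **Row VUG** (bounds, continuity and invariance for general potentials; short-medium; from VCD; copy of the row VUB of helper74/VQ/SpecB (helper73)). -/
def VUG_stmt : Prop := ∀ (Γ : Subgroup SL(2, ℝ)) (e : ℝ) (B : ℕ → ℝ) (U : ℍ → ℝ), Pg Γ e B U →
  (∀ g : SL(2, ℝ), 4 * e ≤ U (g • I) ∧ U (g • I) ≤ B 0 ∧ |n1 U g| ≤ B 1 ∧ |n2 U g| ≤ B 1 ∧ (∀ i j, |hess U g i j| ≤ B 2) ∧ hess U g 0 1 = hess U g 1 0) ∧
  (∀ (E : ℝ) (g : SL(2, ℝ)), |E| ≤ e → 0 < rho U E g ∧ rho U E g ^ 2 = U (g • I) + 2 * E ∧ 2 * e ≤ rho U E g ^ 2 ∧ rho U E g ^ 2 ≤ B 0 + 2 * e ∧ kap U E g * rho U E g = n2 U g / 2) ∧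
  (Continuous (n1 U) ∧ Continuous (n2 U) ∧ (∀ i j, Continuous fun g => hess U g i j) ∧ Continuous (fun p : ℝ × SL(2, ℝ) => rho U p.1 p.2) ∧
    ContinuousOn (fun p : ℝ × SL(2, ℝ) => kap U p.1 p.2) {p | |p.1| ≤ e}) ∧
  (∀ (γ : Γ) (g : SL(2, ℝ)) (E : ℝ), Ug U ((γ : SL(2, ℝ)) * g) = Ug U g ∧ n1 U ((γ : SL(2, ℝ)) * g) = n1 U g ∧ n2 U ((γ : SL(2, ℝ)) * g) = n2 U g ∧ hess U ((γ : SL(2, ℝ)) * g) = hess U g ∧
    rho U E ((γ : SL(2, ℝ)) * g) = rho U E g ∧ kap U E ((γ : SL(2, ℝ)) * g) = kap U E g) ∧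
  ∀ (g : SL(2, ℝ)) (v : ℂ), ‖v‖ ≤ 1 → ContDiffAt ℝ ∞ (Ug U g) v

/-- **Row VDG** (the row VDN of helper74/VQ/SpecB, pointwise, for general potentials; short once VDN is proved (helper73): the same proof, only `U (γ t • I) + 2 E > 0` is used). -/
def VDG_stmt : Prop := ∀ U : ℍ → ℝ, QU.CD ∞ U → ∀ (γ : ℝ → SL(2, ℝ)) (t x b c E : ℝ), 0 < U (γ t • I) + 2 * E →
  (∀ i j, HasDerivAt (fun s => (γ s).1 i j) (((γ t).1 * !![x / 2, b; c, -(x / 2)]) i j) t) →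
  HasDerivAt (fun s => U (γ s • I)) (n1 U (γ t) * x - n2 U (γ t) * (b + c)) t ∧
  HasDerivAt (fun s => n1 U (γ s)) (hess U (γ t) 0 0 * x - hess U (γ t) 0 1 * (b + c) + (b - c) * n2 U (γ t)) t ∧
  HasDerivAt (fun s => n2 U (γ s)) (hess U (γ t) 1 0 * x - hess U (γ t) 1 1 * (b + c) - (b - c) * n1 U (γ t)) t ∧
  HasDerivAt (fun s => rho U E (γ s)) ((n1 U (γ t) * x - n2 U (γ t) * (b + c)) / (2 * rho U E (γ t))) t ∧
  HasDerivAt (fun s => kap U E (γ s)) ((hess U (γ t) 1 0 * x - hess U (γ t) 1 1 * (b + c) - (b - c) * n1 U (γ t)) / (2 * rho U E (γ t)) -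
    kap U E (γ t) * ((n1 U (γ t) * x - n2 U (γ t) * (b + c)) / (2 * rho U E (γ t))) / rho U E (γ t)) t

/-- **Row EX1** (the formulas; medium). With `x = [[a, b], [c, d]]`, `dt4 x > 0`: the base point `z(x) = (a i + b)/(c i + d)`, `Im z(x) = dt4 x/(c² + d²) > 0`, is a smooth function of `x` and does not change under `x ↦ l x`; `u x = QU.onC U (z(x))`. The derivative of `v ↦ g • cdi v` at `v = 0` in the direction `i` is `-1/(c i + d)²` (`cdi v = i (2+v)/(2-v)`, `cdi'(0) = i`,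
`g'(i) = 1/(c i + d)²`, `i · i = -1`), so `n2 U g = fderiv ℝ (QU.onC U) (z) (-1/(c i + d)²)`; put `v x = fderiv ℝ (QU.onC U) (z(x)) (-dt4 x/(c i + d)²)` (homogeneous of degree `0`). `QU.CD ∞ U`: `QU.onC U` is smooth on the open upper half plane, so its `fderiv` is. (Alternatively use `VQE.PZE_stmt` of helper62 with `g = 1`.) -/
def EX1_stmt : Prop := ∀ U : ℍ → ℝ, QU.CD ∞ U → ∃ u v : F4 → ℝ, ContDiffOn ℝ ∞ u {x | 0 < dt4 x} ∧ ContDiffOn ℝ ∞ v {x | 0 < dt4 x} ∧ ∀ (l : ℝ) (g : SL(2, ℝ)), 0 < l → u (l • m4 g) = U (g • I) ∧ v (l • m4 g) = n2 U g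

/-- **Row EXT** (the cut-off; medium; from EX1, VUG). `s1`, `s2 : ℝ → ℝ` smooth, values in `[0, 1]`, `s1 = 1` on `[81/100, 121/100]`, support in `(1/2, 3/2)`, `s2 = 1` on `[-e, e]`, support in `(-3e/2, 3e/2)`. `ρ (x, E) = s1 (dt4 x) s2 E √(u x + 2 E)`, `κ (x, E) = s1 (dt4 x) s2 E v x/(2 √(u x + 2 E))`. Every `x` with `dt4 x > 0` is `l • m4 g`, `l = √(dt4 x)`,
so `4 e ≤ u x ≤ B 0`, `|v x| ≤ B 1` (VUG; or directly from `Pg`), `u x + 2 E ≥ e` on the support. Smooth: on the open set `{dt4 > 0, |E| < 2 e}` it is a product of smooth functions, outside the closed set `{1/2 ≤ dt4 ≤ 3/2, |E| ≤ 3e/2}` it is `0`; these two open sets cover everything (`contDiff_iff_contDiffAt`). -/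
def EXT_stmt : Prop := ∀ (Γ : Subgroup SL(2, ℝ)) (e : ℝ) (B : ℕ → ℝ) (U : ℍ → ℝ), Pg Γ e B U → ∃ (C : ℝ) (ρ κ : F4 × ℝ → ℝ), Ex4 e C U ρ κ

/-- **Row FX4** (restriction to `SL(2, ℝ)`; medium; from GFL). `f4 ρ κ` is smooth, `‖f4 ρ κ y‖ ≤ 2 C ‖y‖`: flow `Φ` and uniqueness (GFL). The second coordinate has derivative `0`; `(dt4)' = dt4 · tr = 0` (direct computation). So for `g : SL(2, ℝ)` the matrix with the entries `(Φ t (m4 g, E)).1` has determinant `1`: this is `fl E t g`. Continuity: `SL(2, ℝ)` has the subspace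
topology. The last part: `Ex4.eq` with `l = 1`, `XX U E g = [[rho/2, kap/2], [-kap/2, -rho/2]]`. -/
def FX4_stmt : Prop := ∀ (e C : ℝ) (U : ℍ → ℝ) (ρ κ : F4 × ℝ → ℝ), Ex4 e C U ρ κ → ∃ (Φ : ℝ → F4 × ℝ → F4 × ℝ) (fl : ℝ → ℝ → SL(2, ℝ) → SL(2, ℝ)), Fw4 e C U fl ρ κ Φ ∧ Continuous (fun p : ℝ × ℝ × SL(2, ℝ) => fl p.1 p.2.1 p.2.2) ∧ (∀ E g, fl E 0 g = g) ∧
  ∀ E t g, |E| ≤ e → ∀ i j, HasDerivAt (fun s => (fl E s g).1 i j) (((fl E t g).1 * XX U E (fl E t g)) i j) t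

/-- **Row FLU** (identification and uniqueness; short-medium; from EXT, FX4). Every solution in `SL(2, ℝ)` is a solution of the equation of `f4 ρ κ` (`Ex4.eq`, `l = 1`), so `Fw4.un` gives uniqueness; apply it to `D.fl`. -/
def FLU_stmt : Prop := ∀ (Γ : Subgroup SL(2, ℝ)) (e : ℝ) (B : ℕ → ℝ) (D : Dyn), OKG Γ e B D → (∃ (C : ℝ) (ρ κ : F4 × ℝ → ℝ) (Φ : ℝ → F4 × ℝ → F4 × ℝ), Fw4 e C D.U D.fl ρ κ Φ) ∧
  ∀ (E : ℝ) (h : ℝ → SL(2, ℝ)), |E| ≤ e → (∀ t i j, HasDerivAt (fun s => (h s).1 i j) (((h t).1 * XX D.U E (h t)) i j) t) → ∀ t, h t = D.fl E t (h 0)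

/-! ## 3. Existence of the dynamics -/

/-- **Row IDG** (existence of the dynamics; medium; from EXT, FX4, YPE, DTN, SAE, VUG). `fl` from EXT, FX4. `Λ` = the subtype `{(E, g) : ℝ × SL(2, ℝ) | |E| ≤ e}` (first countable: metrizable / second countable, RS.GLC). `κ p t = kap U E (fl E t g)`, `K p t = KK U E (fl E t g)`: jointly continuous (VUG) and real symmetric (VUG: `hess` symmetric): YPE gives `Y`, `P`, DTN `det Y ≠ 0`,
so `M = P Y⁻¹` is continuous (`Matrix.inv_def`, adjugate), SAE gives `S` and `a`. For `|E| > e` the trivial values (`OKG.out`). The continuity on `{|E| ≤ e}` of a function of `(E, t, g)` is that of a function on `Λ × ℝ` (`continuousOn_iff_continuous_restrict`). -/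
def IDG_stmt : Prop := ∀ (Γ : Subgroup SL(2, ℝ)) (e : ℝ) (B : ℕ → ℝ) (U : ℍ → ℝ), Pg Γ e B U → ∃ D : Dyn, D.U = U ∧ OKG Γ e B D

/-- **Row IDY** (= `IDY_stmt` of Spec3i; short; from IDG, PGV). `δ0 = 1/10`. -/
def IDY2_stmt : Prop := IDY_stmt

/-! ## 4. Symmetries -/

/-- **Row ROT** (short; from VCD). `kM (π/2) • z = -1/z`, so `kM (π/2) • cdi v = cdi (-v)` for `‖v‖ < 2` (`cdi v = i (2+v)/(2-v)`), `Ug U (g * kM (π/2)) v = Ug U g (-v)` near `0`: `n2` changes the sign (chain rule with `v ↦ -v`; no differentiability needed: `fderiv_comp_neg`-type lemmas or `v ↦ -v` is a linear equivalence), `U (g • I)` does not (`kM θ • I = I`).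
`(-g) • z = g • z`. -/
def ROT_stmt : Prop := ∀ (U : ℍ → ℝ) (g : SL(2, ℝ)) (E : ℝ), n2 U (g * kM (Real.pi / 2)) = -n2 U g ∧ rho U E (g * kM (Real.pi / 2)) = rho U E g ∧ kap U E (g * kM (Real.pi / 2)) = -kap U E g ∧
  (∀ v, Ug U (-g) v = Ug U g v) ∧ n1 U (-g) = n1 U g ∧ n2 U (-g) = n2 U g ∧ hess U (-g) = hess U g ∧ rho U E (-g) = rho U E g ∧ kap U E (-g) = kap U E g

/-- **Row FLA** (short-medium; from FLU, ROT, VUG). Uniqueness (FLU): `s ↦ fl E (s + t) g`; `s ↦ γ * fl E s g` (`rho`, `kap` are `Γ`-invariant: VUG); `s ↦ -fl E s g`; `s ↦ fl E (-s) (g * kM (π/2)) * kM (π/2)⁻¹`: with `h = fl E (-s) (..)`, `k = kM (π/2)`, `(h k⁻¹)' = -h XX(h) k⁻¹ = (h k⁻¹)(-k XX(h) k⁻¹)`,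
`k A0 k⁻¹ = -A0`, `k K0 k⁻¹ = K0`, `rho (h k⁻¹) = rho h`, `kap (h k⁻¹) = -kap h` (ROT for `g = h k⁻¹`). -/
def FLA_stmt : Prop := ∀ (Γ : Subgroup SL(2, ℝ)) (e : ℝ) (B : ℕ → ℝ) (D : Dyn), OKG Γ e B D → ∀ E : ℝ, |E| ≤ e →
  (∀ (s t : ℝ) (g : SL(2, ℝ)), D.fl E (s + t) g = D.fl E s (D.fl E t g)) ∧ (∀ (γ : Γ) (t : ℝ) (g : SL(2, ℝ)), D.fl E t ((γ : SL(2, ℝ)) * g) = (γ : SL(2, ℝ)) * D.fl E t g) ∧
  (∀ (t : ℝ) (g : SL(2, ℝ)), D.fl E t (-g) = -D.fl E t g) ∧ ∀ (t : ℝ) (g : SL(2, ℝ)), D.fl E (-t) (g * kM (Real.pi / 2)) = D.fl E t g * kM (Real.pi / 2)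

/-- **Row FLD** (the speed is at most `c = √(B 0 + 2 e)`; short-medium; from VUG). `h(t) = g⁻¹ fl E t g`, `N = h₀₀² + h₀₁² + h₁₀² + h₁₁² = 2 cosh dist (h • I) I` (`N' = ρ (h₀₀² - h₀₁² + h₁₀² - h₁₁²)`, and `(h₀₀² + h₁₀² - h₀₁² - h₁₁²)² = N² - 4 (h₀₀² + h₁₀²)(h₀₁² + h₁₁²) ≤ N² - 4` because `(h₀₀² + h₁₀²)(h₀₁² + h₁₁²) ≥ (h₀₀ h₁₁ - h₀₁ h₁₀)² = 1`.)
So `|N'| ≤ c √(N² - 4)` (`rho ≤ c`: VUG). Where `d = dist > 0` this is `|d'| ≤ c`; so `d(t) ≤ c |t|` (e.g. on the last interval `(t1, t)` on which `d > 0`: mean value inequality; `d(t1) = 0`). -/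
def FLD_stmt : Prop := ∀ (Γ : Subgroup SL(2, ℝ)) (e : ℝ) (B : ℕ → ℝ) (D : Dyn), OKG Γ e B D → ∀ (E t : ℝ) (g : SL(2, ℝ)), |E| ≤ e → dist (D.fl E t g • I : ℍ) (g • I) ≤ Real.sqrt (B 0 + 2 * e) * |t|

/-- **Row HFB** (short; from FLA, FLD, PGV; `√(11/10 + 1/4) ≤ 6/5`) -/
def HFB_stmt : Prop := HFA_stmt ∧ FLB_stmt

/-! ## 5. Gronwall -/

/-- **Row LPZ** (the fields are Lipschitz, the constant depends only on `e` and a bound `b` of `B 0, B 1, B 2`; medium; from VUG, VCD or `VQE.PZE_stmt`; compare helper90's row FE4 and helper62's rows PZC, PFL). For `nm x ≤ 1/10`: `U((gx) • I) = Ug U g (m)`, `m = cd (x • I)`, `|m| ≤ 4 nm x`, `n2 U (g x) = fderiv ℝ (Ug U g) (m) (m1 · i)`, `m1` = derivative of `v ↦ cd (x • cdi v)` at `0`, `|m1 - 1| ≤ 8 nm x`;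
`‖fderiv‖ ≤ B 1`, the second derivative is `≤ B 2` on `|v| ≤ 1` (`Pg.bd`), mean value inequality. For `nm x > 1/10`: the sup bounds. `rho = √(U + 2E)`, `U + 2E ≥ 2 e`. -/
def LPZ_stmt : Prop := ∀ e b : ℝ, 0 < e → ∃ C : ℝ, 1 ≤ C ∧ ∀ (Γ : Subgroup SL(2, ℝ)) (B : ℕ → ℝ) (U : ℍ → ℝ), B 0 ≤ b → B 1 ≤ b → B 2 ≤ b → Pg Γ e B U → ∀ (E E' : ℝ) (g x : SL(2, ℝ)), |E| ≤ e → |E'| ≤ e →
  |rho U E' (g * x) - rho U E g| ≤ C * (nm x + |E' - E|) ∧ |kap U E' (g * x) - kap U E g| ≤ C * (nm x + |E' - E|)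

/-- **Row GRW** (Gronwall for two energies, the constant depends only on `e`, `b`; medium; from LPZ, VUG; compare helper84's rows PD4, GR4). `X(t) = (fl E t g)⁻¹ fl E' t g'`, `X' = X XX' - XX X = (X-1) XX' - XX (X-1) + (XX' - XX)`, where `XX' = XX U E' (fl E' t g')`, `XX = XX U E (fl E t g)`. `fl E' t g' = (fl E t g) X`, so by LPZ the last term is at most `C0 (nm X + |E' - E|)`;
the entries of `XX`, `XX'` are at most `c = c(e, b)`. So `u = X - 1` satisfies `‖u'‖ ≤ (4 c + C0)(‖u‖ + ε)` for ALL `t`: `norm_le_gronwallBound_of_norm_deriv_right_le`. For negative `t` the function `u(-s)`. -/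
def GRW_stmt : Prop := ∀ e b : ℝ, 0 < e → ∃ C : ℝ, 1 ≤ C ∧ ∀ (Γ : Subgroup SL(2, ℝ)) (B : ℕ → ℝ) (D : Dyn), B 0 ≤ b → B 1 ≤ b → B 2 ≤ b → OKG Γ e B D → ∀ (E E' t : ℝ) (g g' : SL(2, ℝ)), |E| ≤ e → |E'| ≤ e →
  nm ((D.fl E t g)⁻¹ * D.fl E' t g') ≤ (nm (g⁻¹ * g') + |E' - E|) * Real.exp (C * |t|)

/-- **Row HFG** (= `HFG_stmt` of SpecC; short; from GRW (`e = 1/8`, `b = 11/10`), FLA, PGV). If `p.1⁻¹ q.1` is near `-1` replace `q.1` by `-q.1` (`fl E t (-g) = -fl E t g`). `C` = `2 +` the constant of GRW. -/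
def HFG2_stmt : Prop := HFG_stmt

/-- **Row FLG** (= `FLG_stmt` of Spec3b; short; from GRW (`e = 1/8`, `b = 11/10`), PGV; `δ0 = 1/10`). `EN.nr η x` is `|x_ij - 1_ij| < η` for all `i, j`, that is `nm x < η`. -/
def FLG2_stmt : Prop := FLG_stmt

/-! ## 6. `C¹` dependence -/

/-- **Row TAN** (derivatives of the extensions in the directions tangent to the sets `l SL(2, ℝ)`; short-medium; from VDG). The curve `γ s = g * nM (b s) * lM (c s) * aM (x s)` has `γ 0 = g`, `γ' (0) = g [[x/2, b], [c, -x/2]]`, and `ρ (l • m4 (γ s), E) = rho U E (γ s)` (`Ex4.eq`): chain rule (`s ↦ (l • m4 (γ s), E)` has the derivative `(l • mu4 (m4 g) (x/2) b c, 0)`) and VDG at `t = 0` (`U (g • I) + 2 E ≥ 2 e > 0`). -/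
def TAN_stmt : Prop := ∀ (Γ : Subgroup SL(2, ℝ)) (e C : ℝ) (B : ℕ → ℝ) (U : ℍ → ℝ) (ρ κ : F4 × ℝ → ℝ), Pg Γ e B U → Ex4 e C U ρ κ → ∀ (E l x b c : ℝ) (g : SL(2, ℝ)), |E| ≤ e → 9 / 10 ≤ l → l ≤ 11 / 10 →
  fderiv ℝ ρ (l • m4 g, E) (l • mu4 (m4 g) (x / 2) b c, 0) = (n1 U g * x - n2 U g * (b + c)) / (2 * rho U E g) ∧
  fderiv ℝ κ (l • m4 g, E) (l • mu4 (m4 g) (x / 2) b c, 0) = (hess U g 1 0 * x - hess U g 1 1 * (b + c) - (b - c) * n1 U g) / (2 * rho U E g) -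
    kap U E g * ((n1 U g * x - n2 U g * (b + c)) / (2 * rho U E g)) / rho U E g

/-- **Row FCV** (the variational equation; medium; from TAN). `v(t) = fderiv ℝ (Φ t) (m4 g, E) (mu4 (m4 g) (x/2) b c, 0)`. By `IsC1Flow.var` `v' = fderiv (f4 ρ κ) (Φ t ..) v`. The second component is constant `= 0` (differentiate `(Φ t y).2 = y.2` in `y`), and differentiating `dt4 (Φ t y).1 = dt4 y.1` in `y`:
`Ddt4 (m4 h) (v.1) = Ddt4 (m4 g) (mu4 (m4 g) ..) = 0`, `h = fl E t g`. So `W = h⁻¹ v.1` (as matrices; `h⁻¹ = [[h₁₁, -h₀₁], [-h₁₀, h₀₀]]`) is traceless, `W = [[X/2, B], [C, -X/2]]`, that is `v.1 = mu4 (m4 h) (X/2) B C`. `W' = -XX W + h⁻¹ v.1' = W XX - XX W + (fderiv ρ v) A0 + (fderiv κ v) K0`,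
and the two derivatives are given by TAN with `l = 1`: this is `VSol` (`dr`, `dk`). -/
def FCV_stmt : Prop := ∀ (Γ : Subgroup SL(2, ℝ)) (e C : ℝ) (B : ℕ → ℝ) (D : Dyn) (ρ κ : F4 × ℝ → ℝ) (Φ : ℝ → F4 × ℝ → F4 × ℝ), OKG Γ e B D → Fw4 e C D.U D.fl ρ κ Φ → ∀ (E x b c : ℝ) (g : SL(2, ℝ)), |E| ≤ e →
  ∃ X Bq Cq : ℝ → ℝ, X 0 = x ∧ Bq 0 = b ∧ Cq 0 = c ∧ VSol D E g X Bq Cq ∧ ∀ t, fderiv ℝ (Φ t) (m4 g, E) (mu4 (m4 g) (x / 2) b c, 0) = (mu4 (m4 (D.fl E t g)) (X t / 2) (Bq t) (Cq t), 0)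

/-- **Row FLC** (`C¹` DEPENDENCE; medium; from FLU, FCV). The columns of `w E t g` are the solutions of FCV with the initial values `(1,0,0)`, `(0,1,0)`, `(0,0,1)`; by linearity of `fderiv` the solution with the initial value `(x, b, c)` is `w (x, b, c)`. Explicitly `w` is a polynomial in the entries of `fl E t g` (inverse matrix) and of `fderiv ℝ (Φ t) (m4 g, E)`, so it is continuous
(`IsC1Flow.dcont`, `OKG.cfl`). Third part: `m4 (fl E t (γ r)) = (Φ t (m4 (γ r), E)).1`, chain rule. -/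
def FLC_stmt : Prop := ∀ (Γ : Subgroup SL(2, ℝ)) (e : ℝ) (B : ℕ → ℝ) (D : Dyn), OKG Γ e B D → ∃ w : ℝ → ℝ → SL(2, ℝ) → Fin 3 → Fin 3 → ℝ,
  (∀ i j, ContinuousOn (fun p : ℝ × ℝ × SL(2, ℝ) => w p.1 p.2.1 p.2.2 i j) {p | |p.1| ≤ e}) ∧
  (∀ (E : ℝ) (g : SL(2, ℝ)), |E| ≤ e → (∀ i j, w E 0 g i j = if i = j then 1 else 0) ∧ ∀ x b c : ℝ,
    VSol D E g (fun t => w E t g 0 0 * x + w E t g 0 1 * b + w E t g 0 2 * c) (fun t => w E t g 1 0 * x + w E t g 1 1 * b + w E t g 1 2 * c) (fun t => w E t g 2 0 * x + w E t g 2 1 * b + w E t g 2 2 * c)) ∧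
  ∀ (E t : ℝ), |E| ≤ e → ∀ (γ : ℝ → SL(2, ℝ)) (s x b c : ℝ), (∀ i j, HasDerivAt (fun r => (γ r).1 i j) (((γ s).1 * !![x / 2, b; c, -(x / 2)]) i j) s) →
    ∀ i j, HasDerivAt (fun r => (D.fl E t (γ r)).1 i j) (((D.fl E t (γ s)).1 * !![(w E t (γ s) 0 0 * x + w E t (γ s) 0 1 * b + w E t (γ s) 0 2 * c) / 2, w E t (γ s) 1 0 * x + w E t (γ s) 1 1 * b + w E t (γ s) 1 2 * c;
      w E t (γ s) 2 0 * x + w E t (γ s) 2 1 * b + w E t (γ s) 2 2 * c, -((w E t (γ s) 0 0 * x + w E t (γ s) 0 1 * b + w E t (γ s) 0 2 * c) / 2)]) i j) s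

/-! ## 7. Invariance of the measure -/

/-- **Row TRZ** (the divergence vanishes; short-medium; from TAN). With `x = l • m4 g`: `Σ_i ∂_i (f4)_i = fderiv ρ x (x A0) + fderiv κ x (x K0)` (the terms without derivatives cancel, `A0`, `K0` are traceless), `x A0 = l • mu4 (m4 g) (1/2) 0 0`, `x K0 = l • mu4 (m4 g) 0 (1/2) (-1/2)`; by TAN with `(x, b, c) = (1, 0, 0)` and `(0, 1/2, -1/2)` the sum is
`n1/(2 rho) + (-n1)/(2 rho) = 0`. -/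
def TRZ_stmt : Prop := ∀ (Γ : Subgroup SL(2, ℝ)) (e C : ℝ) (B : ℕ → ℝ) (U : ℍ → ℝ) (ρ κ : F4 × ℝ → ℝ), Pg Γ e B U → Ex4 e C U ρ κ → ∀ (E l : ℝ) (g : SL(2, ℝ)), |E| ≤ e → 9 / 10 ≤ l → l ≤ 11 / 10 →
  ∑ i, fderiv ℝ (fun z : F4 => (f4 ρ κ (z, E)).1) (l • m4 g) (Pi.single i 1) i = 0

/-- the cone over `A` -/
def cn4 (A : Set SL(2, ℝ)) : Set F4 := {x | ∃ l : ℝ, 9 / 10 < l ∧ l < 11 / 10 ∧ ∃ g ∈ A, x = l • m4 g}

/-- **Row LMP** (PURE; short). `lm4 g` is linear with the determinant `(det g)² = 1` (`4 × 4` matrix with blocks; `Real.map_matrix_volume_pi_eq_smul_volume_pi` or `Measure.addHaar_preimage_linearMap`); `lm4 g (m4 h) = m4 (g * h)`, `dt4 (lm4 g x) = dt4 x`; `x ∈ cn4 A` iff `81/100 < dt4 x < 121/100` and the normalised matrix `x/√(dt4 x)` is in `A`: measurable. -/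
def LMP_stmt : Prop := (∀ g : SL(2, ℝ), MeasurePreserving (lm4 g) volume volume) ∧ (∀ g h : SL(2, ℝ), lm4 g (m4 h) = m4 (g * h)) ∧ (∀ (g : SL(2, ℝ)) (l : ℝ) (x : F4), lm4 g (l • x) = l • lm4 g x) ∧ (∀ A : Set SL(2, ℝ), MeasurableSet A → MeasurableSet (cn4 A)) ∧
  (∀ x : F4, x ∈ cn4 univ ↔ 81 / 100 < dt4 x ∧ dt4 x < 121 / 100) ∧ ∀ (l l' : ℝ) (g h : SL(2, ℝ)), 0 < l → 0 < l' → l • m4 g = l' • m4 h → l = l' ∧ g = h

/-- **Row HAC** (Haar measure and the cones; medium; from LMP, RS: GLC, GMG, GLI). `ν A = volume (cn4 A)` is a measure on `SL(2, ℝ)` (map of the restriction of `volume` to `cn4 univ` under the normalisation), finite on compact sets (bounded cones), left invariant (LMP), not zero (`cn4 univ` is open and not empty). Uniqueness of Haar measure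
(`mG` is a Haar measure: see helper9/RS/GRI.lean; `Measure.isMulLeftInvariant_eq_smul`): `ν = c' • mG`, `0 < c' < ∞`. -/
def HAC_stmt : Prop := ∃ c : ENNReal, c ≠ 0 ∧ c ≠ ⊤ ∧ ∀ A : Set SL(2, ℝ), MeasurableSet A → mG A = c * volume (cn4 A)

/-- **Row MPG** (THE FLOW PRESERVES THE MEASURE; medium; from FLU, FLA, LVP, TRZ, LMP, HAC). Fix `E`. `Φ1 t z = (Φ t (z, E)).1` is an `IsC1Flow` of `f1 z = (f4 ρ κ (z, E)).1` (compose `Φ` with `z ↦ (z, E)` and the projection; the second coordinate is constant). Homogeneity: `Φ1 t (l • m4 g) = l • m4 (fl E t g)` for `9/10 < l < 11/10`: the curve `t ↦ (l • m4 (fl E t g), E)` solves the equation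
(`Ex4.eq`, `mu4` is linear in `x`), `Fw4.un`. `S = cn4 univ` is invariant, the divergence vanishes on `S` (TRZ), so `volume (Φ1 t ⁻¹' cn4 A) = volume (cn4 A)` (LVP), and `Φ1 t ⁻¹' cn4 A = cn4 (fl E t ⁻¹' A)` (inverse `Φ1 (-t)`; `fl E (-t)` is the inverse of `fl E t`). HAC. `fl E t` is continuous (`OKG.cfl`). -/
def MPG_stmt : Prop := ∀ (Γ : Subgroup SL(2, ℝ)) (e : ℝ) (B : ℕ → ℝ) (D : Dyn), OKG Γ e B D → ∀ E t : ℝ, |E| ≤ e → MeasurePreserving (D.fl E t) mG mG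

/-- **Row HFM** (= `HFM_stmt` of SpecC; short; from MPG, PGV). -/
def HFM2_stmt : Prop := HFM_stmt

/-- **Row FFL** (= `VQE.FFL_stmt`; short-medium; from FLA, MPG, PGV). `δ0 = 1/10`; `Flw.cont` from `OKD.cfl`; `d0`, `d1` from `OKD.dfl`, `XX = [[rho/2, kap/2], [-kap/2, -rho/2]]`. -/
def FFL2_stmt : Prop := VQE.FFL_stmt

end

end Pool.Agent.VQ
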