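import Pool.Agent.helper80.VQ.SpecFL
import Pool.Agent.helper43.VQ.PD4

/-!
# vq:FCV: the variational equation of the flow in the left trivialisation
-/

set_option autoImplicit false

open scoped MatrixGroups ContDiff Topology UpperHalfPlane ComplexConjugate ENNReal
open UpperHalfPlane MeasureTheory Filter Set

namespace Pool.Agent.VQ

open Pool.Agent.RS
open Pool.Agent.VQE (nm)

/-- components of a differentiable curve in `F4 × ℝ` -/
theorem FCV_comp {v : ℝ → F4 × ℝ} {v' : F4 × ℝ} {t : ℝ} (h : HasDerivAt v v' t) :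
    (∀ i, HasDerivAt (fun s => (v s).1 i) (v'.1 i) t) ∧ HasDerivAt (fun s => (v s).2) v'.2 t := by
  have h1 : HasDerivAt (fun s => (v s).1) v'.1 t := (ContinuousLinearMap.fst ℝ F4 ℝ).hasFDerivAt.comp_hasDerivAt t h
  have h2 : HasDerivAt (fun s => (v s).2) v'.2 t := (ContinuousLinearMap.snd ℝ F4 ℝ).hasFDerivAt.comp_hasDerivAt t h
  exact ⟨hasDerivAt_pi.1 h1, h2⟩

/-- the straight line -/
theorem FCV_line (y w : F4 × ℝ) : HasDerivAt (fun s : ℝ => y + s • w) w 0 := by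
  have h := ((hasDerivAt_id (0 : ℝ)).smul_const w).const_add y
  simpa using h

theorem FCV_dt {v : ℝ → F4 × ℝ} {v' : F4 × ℝ} {t : ℝ} (h : HasDerivAt v v' t) :
    HasDerivAt (fun s => dt4 (v s).1) ((v t).1 0 * v'.1 3 + (v t).1 3 * v'.1 0 - (v t).1 1 * v'.1 2 - (v t).1 2 * v'.1 1) t := by
  obtain ⟨hi, -⟩ := FCV_comp h
  have h1 := ((hi 0).mul (hi 3)).sub ((hi 1).mul (hi 2))
  refine h1.congr_deriv ?_
  ring

theorem FCV_diff {ρ κ : F4 × ℝ → ℝ} (hρ : Differentiable ℝ ρ) (hκ : Differentiable ℝ κ) : Differentiable ℝ (f4 ρ κ) := by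
  intro y
  unfold f4
  refine DifferentiableAt.prodMk ?_ (differentiableAt_const _)
  have hρ' := hρ y
  have hκ' := hκ y
  have hy : ∀ i : Fin 4, DifferentiableAt ℝ (fun y : F4 × ℝ => y.1 i) y := fun i =>
    (differentiableAt_pi.1 (differentiableAt_fst (𝕜 := ℝ) (E := F4) (F := ℝ) (p := y))) i
  have h1 : DifferentiableAt ℝ (fun y : F4 × ℝ => ρ y / 2) y := by
    simp only [div_eq_mul_inv]
    exact hρ'.mul_const _
  have h2 : DifferentiableAt ℝ (fun y : F4 × ℝ => κ y / 2) y := by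
    simp only [div_eq_mul_inv]
    exact hκ'.mul_const _
  have h3 : DifferentiableAt ℝ (fun y : F4 × ℝ => -(κ y / 2)) y := h2.neg
  rw [differentiableAt_pi]
  intro i
  fin_cases i
  · exact ((hy 0).mul h1).add ((hy 1).mul h3)
  · exact ((hy 0).mul h2).sub ((hy 1).mul h1)
  · exact ((hy 2).mul h1).add ((hy 3).mul h3)
  · exact ((hy 2).mul h2).sub ((hy 3).mul h1)

/-- the derivative of `f4` in the direction `w` -/
theorem FCV_df {ρ κ : F4 × ℝ → ℝ} (hρ : Differentiable ℝ ρ) (hκ : Differentiable ℝ κ) (y w : F4 × ℝ) (r k dr dk : ℝ)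
    (hr : r = ρ y) (hk : k = κ y) (hdr : dr = fderiv ℝ ρ y w) (hdk : dk = fderiv ℝ κ y w) :
    (fderiv ℝ (f4 ρ κ) y w).1 0 = w.1 0 * (r / 2) - w.1 1 * (k / 2) + y.1 0 * (dr / 2) - y.1 1 * (dk / 2) ∧
    (fderiv ℝ (f4 ρ κ) y w).1 1 = w.1 0 * (k / 2) - w.1 1 * (r / 2) + y.1 0 * (dk / 2) - y.1 1 * (dr / 2) ∧
    (fderiv ℝ (f4 ρ κ) y w).1 2 = w.1 2 * (r / 2) - w.1 3 * (k / 2) + y.1 2 * (dr / 2) - y.1 3 * (dk / 2) ∧
    (fderiv ℝ (f4 ρ κ) y w).1 3 = w.1 2 * (k / 2) - w.1 3 * (r / 2) + y.1 2 * (dk / 2) - y.1 3 * (dr / 2) := by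
  have hl := FCV_line y w
  have hy0 : y + (0 : ℝ) • w = y := by rw [zero_smul, add_zero]
  have h1 : HasDerivAt (fun s : ℝ => f4 ρ κ (y + s • w)) (fderiv ℝ (f4 ρ κ) y w) 0 := by
    have h2 : HasFDerivAt (f4 ρ κ) (fderiv ℝ (f4 ρ κ) y) (y + (0 : ℝ) • w) := by
      rw [hy0]
      exact (FCV_diff hρ hκ y).hasFDerivAt
    exact h2.comp_hasDerivAt (0 : ℝ) hl
  have hr' : HasDerivAt (fun s : ℝ => ρ (y + s • w)) dr 0 := by
    have h2 : HasFDerivAt ρ (fderiv ℝ ρ y) (y + (0 : ℝ) • w) := by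
      rw [hy0]
      exact (hρ y).hasFDerivAt
    rw [hdr]
    exact h2.comp_hasDerivAt (0 : ℝ) hl
  have hk' : HasDerivAt (fun s : ℝ => κ (y + s • w)) dk 0 := by
    have h2 : HasFDerivAt κ (fderiv ℝ κ y) (y + (0 : ℝ) • w) := by
      rw [hy0]
      exact (hκ y).hasFDerivAt
    rw [hdk]
    exact h2.comp_hasDerivAt (0 : ℝ) hl
  have hkn : HasDerivAt (fun s : ℝ => -(κ (y + s • w) / 2)) (-(dk / 2)) 0 := (hk'.div_const 2).neg
  obtain ⟨hf, -⟩ := FCV_comp h1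
  obtain ⟨hi, -⟩ := FCV_comp hl
  refine ⟨?_, ?_, ?_, ?_⟩
  · refine (hf 0).unique ((((hi 0).mul (hr'.div_const 2)).add ((hi 1).mul hkn)).congr_deriv ?_)
    simp only [hy0, ← hr, ← hk]
    ring
  · refine (hf 1).unique ((((hi 0).mul (hk'.div_const 2)).sub ((hi 1).mul (hr'.div_const 2))).congr_deriv ?_)
    simp only [hy0, ← hr, ← hk]
    ring
  · refine (hf 2).unique ((((hi 2).mul (hr'.div_const 2)).add ((hi 3).mul hkn)).congr_deriv ?_)
    simp only [hy0, ← hr, ← hk]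
    ring
  · refine (hf 3).unique ((((hi 2).mul (hk'.div_const 2)).sub ((hi 3).mul (hr'.div_const 2))).congr_deriv ?_)
    simp only [hy0, ← hr, ← hk]
    ring

theorem FCV_det (g : SL(2, ℝ)) : g.1 0 0 * g.1 1 1 - g.1 0 1 * g.1 1 0 = 1 := by
  have h := g.2
  rw [Matrix.det_fin_two] at h
  exact h

theorem FCV_proof (hTAN : TAN_stmt) : FCV_stmt := by
  intro Γ e C B D ρ κ Φ hD hF E x b c g hE
  have hρ : Differentiable ℝ ρ := hF.ex.sr.differentiable (by norm_num)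
  have hκ : Differentiable ℝ κ := hF.ex.sk.differentiable (by norm_num)
  set y0 : F4 × ℝ := (m4 g, E) with hy0
  set w0 : F4 × ℝ := (mu4 (m4 g) (x / 2) b c, 0) with hw0
  let v : ℝ → F4 × ℝ := fun t => fderiv ℝ (Φ t) y0 w0
  have hv : ∀ t, HasDerivAt v (fderiv ℝ (f4 ρ κ) (Φ t y0) (v t)) t := by
    intro t
    have h1 := (hF.flow.var y0 t).clm_apply (hasDerivAt_const t w0)
    refine h1.congr_deriv ?_
    simp [v]
  have hΦ0 : Φ 0 = id := funext hF.flow.zero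
  have hv0 : v 0 = w0 := by
    show fderiv ℝ (Φ 0) y0 w0 = w0
    rw [hΦ0, fderiv_id]
    rfl
  have hΦ : ∀ t, Φ t y0 = (m4 (D.fl E t g), E) := fun t => hF.eq E t g hE
  -- the variation of the point
  have hline : ∀ t, HasDerivAt (fun s : ℝ => Φ t (y0 + s • w0)) (v t) 0 := by
    intro t
    have h2 : HasFDerivAt (Φ t) (fderiv ℝ (Φ t) y0) (y0 + (0 : ℝ) • w0) := by
      rw [zero_smul, add_zero]
      exact (hF.flow.diff t y0).hasFDerivAt
    exact h2.comp_hasDerivAt (0 : ℝ) (FCV_line y0 w0)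
  have hv2 : ∀ t, (v t).2 = 0 := by
    intro t
    have h1 := (FCV_comp (hline t)).2
    have h2 : (fun s : ℝ => (Φ t (y0 + s • w0)).2) = fun s : ℝ => (y0 + s • w0).2 := funext fun s => (hF.dt t _).1
    rw [h2] at h1
    exact h1.unique (FCV_comp (FCV_line y0 w0)).2
  have htr : ∀ t, (D.fl E t g).1 0 0 * (v t).1 3 + (D.fl E t g).1 1 1 * (v t).1 0 - (D.fl E t g).1 0 1 * (v t).1 2 -
      (D.fl E t g).1 1 0 * (v t).1 1 = 0 := by
    intro t
    have h1 := FCV_dt (hline t)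
    have h2 : (fun s : ℝ => dt4 (Φ t (y0 + s • w0)).1) = fun s : ℝ => dt4 (y0 + s • w0).1 := funext fun s => (hF.dt t _).2
    rw [h2] at h1
    have h3 := h1.unique (FCV_dt (FCV_line y0 w0))
    rw [zero_smul, add_zero, hΦ t] at h3
    have h4 : (m4 (D.fl E t g)) 0 * (v t).1 3 + (m4 (D.fl E t g)) 3 * (v t).1 0 - (m4 (D.fl E t g)) 1 * (v t).1 2 - (m4 (D.fl E t g)) 2 * (v t).1 1 =
        (m4 g) 0 * (mu4 (m4 g) (x / 2) b c) 3 + (m4 g) 3 * (mu4 (m4 g) (x / 2) b c) 0 - (m4 g) 1 * (mu4 (m4 g) (x / 2) b c) 2 - (m4 g) 2 * (mu4 (m4 g) (x / 2) b c) 1 := h3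
    have h5 : (m4 g) 0 * (mu4 (m4 g) (x / 2) b c) 3 + (m4 g) 3 * (mu4 (m4 g) (x / 2) b c) 0 - (m4 g) 1 * (mu4 (m4 g) (x / 2) b c) 2 - (m4 g) 2 * (mu4 (m4 g) (x / 2) b c) 1 = 0 := by
      show g.1 0 0 * (g.1 1 0 * b - g.1 1 1 * (x / 2)) + g.1 1 1 * (g.1 0 0 * (x / 2) + g.1 0 1 * c) - g.1 0 1 * (g.1 1 0 * (x / 2) + g.1 1 1 * c) -
        g.1 1 0 * (g.1 0 0 * b - g.1 0 1 * (x / 2)) = 0
      ring
    rw [h5] at h4
    exact h4
  let X : ℝ → ℝ := fun t => 2 * ((D.fl E t g).1 1 1 * (v t).1 0 - (D.fl E t g).1 0 1 * (v t).1 2)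
  let Bq : ℝ → ℝ := fun t => (D.fl E t g).1 1 1 * (v t).1 1 - (D.fl E t g).1 0 1 * (v t).1 3
  let Cq : ℝ → ℝ := fun t => (D.fl E t g).1 0 0 * (v t).1 2 - (D.fl E t g).1 1 0 * (v t).1 0
  have hmu : ∀ t, v t = (mu4 (m4 (D.fl E t g)) (X t / 2) (Bq t) (Cq t), 0) := by
    intro t
    have hdet := FCV_det (D.fl E t g)
    have ht := htr t
    refine Prod.ext ?_ (hv2 t)
    funext i
    fin_cases i
    · show (v t).1 0 = (D.fl E t g).1 0 0 * (X t / 2) + (D.fl E t g).1 0 1 * (Cq t)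
      simp only [X, Cq]
      linear_combination (-(v t).1 0) * hdet
    · show (v t).1 1 = (D.fl E t g).1 0 0 * (Bq t) - (D.fl E t g).1 0 1 * (X t / 2)
      simp only [X, Bq]
      linear_combination (-(v t).1 1) * hdet + (D.fl E t g).1 0 1 * ht
    · show (v t).1 2 = (D.fl E t g).1 1 0 * (X t / 2) + (D.fl E t g).1 1 1 * (Cq t)
      simp only [X, Cq]
      linear_combination (-(v t).1 2) * hdet
    · show (v t).1 3 = (D.fl E t g).1 1 0 * (Bq t) - (D.fl E t g).1 1 1 * (X t / 2)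
      simp only [X, Bq]
      linear_combination (-(v t).1 3) * hdet + (D.fl E t g).1 1 1 * ht
  refine ⟨X, Bq, Cq, ?_, ?_, ?_, ?_, hmu⟩
  · have hdet := FCV_det g
    show 2 * ((D.fl E 0 g).1 1 1 * (v 0).1 0 - (D.fl E 0 g).1 0 1 * (v 0).1 2) = x
    rw [hv0, hD.fl0]
    show 2 * (g.1 1 1 * (g.1 0 0 * (x / 2) + g.1 0 1 * c) - g.1 0 1 * (g.1 1 0 * (x / 2) + g.1 1 1 * c)) = x
    linear_combination x * hdet
  · have hdet := FCV_det g
    show (D.fl E 0 g).1 1 1 * (v 0).1 1 - (D.fl E 0 g).1 0 1 * (v 0).1 3 = b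
    rw [hv0, hD.fl0]
    show g.1 1 1 * (g.1 0 0 * b - g.1 0 1 * (x / 2)) - g.1 0 1 * (g.1 1 0 * b - g.1 1 1 * (x / 2)) = b
    linear_combination b * hdet
  · have hdet := FCV_det g
    show (D.fl E 0 g).1 0 0 * (v 0).1 2 - (D.fl E 0 g).1 1 0 * (v 0).1 0 = c
    rw [hv0, hD.fl0]
    show g.1 0 0 * (g.1 1 0 * (x / 2) + g.1 1 1 * c) - g.1 1 0 * (g.1 0 0 * (x / 2) + g.1 0 1 * c) = c
    linear_combination c * hdet
  · intro t r k dr dk hr hk hdr hdk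
    have hdet := FCV_det (D.fl E t g)
    have ht := htr t
    -- the derivatives of the extended fields
    obtain ⟨hT1, hT2⟩ := hTAN Γ e C B D.U ρ κ hD.pot hF.ex E 1 (X t) (Bq t) (Cq t) (D.fl E t g) hE (by norm_num) (by norm_num)
    rw [one_smul, one_smul, ← hmu t, ← hΦ t] at hT1 hT2
    obtain ⟨hE1, hE2⟩ := hF.ex.eq E 1 (D.fl E t g) hE (by norm_num) (by norm_num)
    rw [one_smul, ← hΦ t] at hE1 hE2
    have hr1 : r = ρ (Φ t y0) := by rw [hr, hE1]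
    have hk1 : k = κ (Φ t y0) := by rw [hk, hE2]
    have hdr1 : dr = fderiv ℝ ρ (Φ t y0) (v t) := by rw [hdr, hT1, hr]
    have hdk1 : dk = fderiv ℝ κ (Φ t y0) (v t) := by
      rw [hT2, hdk, hdr, hr, hk]
    obtain ⟨d0, d1, d2, d3⟩ := FCV_df hρ hκ (Φ t y0) (v t) r k dr dk hr1 hk1 hdr1 hdk1
    have hy : ∀ i, (Φ t y0).1 i = m4 (D.fl E t g) i := fun i => by rw [hΦ t]
    have hy0' : (Φ t y0).1 0 = (D.fl E t g).1 0 0 := hy 0
    have hy1' : (Φ t y0).1 1 = (D.fl E t g).1 0 1 := hy 1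
    have hy2' : (Φ t y0).1 2 = (D.fl E t g).1 1 0 := hy 2
    have hy3' : (Φ t y0).1 3 = (D.fl E t g).1 1 1 := hy 3
    rw [hy0', hy1'] at d0 d1
    rw [hy2', hy3'] at d2 d3
    obtain ⟨hvi, -⟩ := FCV_comp (hv t)
    have ha : ∀ i, HasDerivAt (fun s => (D.fl E s g).1 i 0)
        ((D.fl E t g).1 i 0 * (r / 2) - (D.fl E t g).1 i 1 * (k / 2)) t := by
      intro i
      have h := hD.dfl E t g hE i 0
      rw [(PD4_XX _ _ _ _ _).1, ← hr, ← hk] at h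
      exact h
    have hb : ∀ i, HasDerivAt (fun s => (D.fl E s g).1 i 1)
        ((D.fl E t g).1 i 0 * (k / 2) - (D.fl E t g).1 i 1 * (r / 2)) t := by
      intro i
      have h := hD.dfl E t g hE i 1
      rw [(PD4_XX _ _ _ _ _).2, ← hr, ← hk] at h
      exact h
    refine ⟨?_, ?_, ?_⟩
    · refine ((((hb 1).mul (hvi 0)).sub ((hb 0).mul (hvi 2))).const_mul 2).congr_deriv ?_
      rw [d0, d2]
      simp only [Bq, Cq]
      linear_combination dr * hdet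
    · refine (((hb 1).mul (hvi 1)).sub ((hb 0).mul (hvi 3))).congr_deriv ?_
      rw [d1, d3]
      simp only [X, Bq]
      linear_combination dk / 2 * hdet - k / 2 * ht
    · refine (((ha 0).mul (hvi 2)).sub ((ha 1).mul (hvi 0))).congr_deriv ?_
      rw [d2, d0]
      simp only [X, Cq]
      linear_combination (-(dk / 2)) * hdet - k / 2 * ht

end Pool.Agent.VQ
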