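import Pool.Agent.helper80.VQ.SpecFL
import Pool.Agent.helper43.VQ.PD4

/-!
# vq:GRW: Gronwall for two orbits with two energies, all times, absolute constant
-/

set_option autoImplicit false

open scoped MatrixGroups ContDiff Topology UpperHalfPlane ComplexConjugate ENNReal
open UpperHalfPlane MeasureTheory Filter Set

namespace Pool.Agent.VQ

open Pool.Agent.RS
open Pool.Agent.VQE (nm)

theorem GRW_m {x y X Y : ℝ} (hx : |x| ≤ X) (hy : |y| ≤ Y) : |x * y| ≤ X * Y := by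
  rw [abs_mul]
  exact mul_le_mul hx hy (abs_nonneg y) ((abs_nonneg x).trans hx)

theorem GRW_gron_pos {F : Type*} [NormedAddCommGroup F] [NormedSpace ℝ F] (u u' : ℝ → F) (hu : ∀ s, HasDerivAt u (u' s) s)
    (K e : ℝ) (hK : 1 ≤ K) (he : 0 ≤ e) (hb : ∀ s, ‖u' s‖ ≤ K * (‖u s‖ + e)) (t : ℝ) (ht : 0 ≤ t) :
    ‖u t‖ ≤ (‖u 0‖ + e) * Real.exp (K * t) := by
  have h := norm_le_gronwallBound_of_norm_deriv_right_le (f := u) (f' := u') (δ := ‖u 0‖) (K := K) (ε := K * e) (a := 0) (b := t)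
    (fun s _ => (hu s).continuousAt.continuousWithinAt) (fun s _ => (hu s).hasDerivWithinAt) le_rfl
    (fun s _ => by rw [← mul_add]; exact hb s) t ⟨ht, le_rfl⟩
  refine h.trans ?_
  rw [sub_zero, gronwallBound_of_K_ne_0 (by linarith), mul_div_cancel_left₀ e (by linarith)]
  linarith

theorem GRW_gron {F : Type*} [NormedAddCommGroup F] [NormedSpace ℝ F] (u u' : ℝ → F) (hu : ∀ s, HasDerivAt u (u' s) s)
    (K e : ℝ) (hK : 1 ≤ K) (he : 0 ≤ e) (hb : ∀ s, ‖u' s‖ ≤ K * (‖u s‖ + e)) (t : ℝ) :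
    ‖u t‖ ≤ (‖u 0‖ + e) * Real.exp (K * |t|) := by
  rcases le_total 0 t with ht | ht
  · rw [abs_of_nonneg ht]
    exact GRW_gron_pos u u' hu K e hK he hb t ht
  · rw [abs_of_nonpos ht]
    have h := GRW_gron_pos (fun s => u (-s)) (fun s => -(u' (-s))) (fun s => by
      have h1 : HasDerivAt (u ∘ Neg.neg) ((-1 : ℝ) • u' (-s)) s := (hu (-s)).scomp s (hasDerivAt_neg s)
      rw [neg_one_smul] at h1
      exact h1) K e hK he (fun s => by rw [norm_neg]; exact hb (-s)) (-t) (by linarith)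
    simpa using h

/-- the derivative of the difference of two orbits -/
theorem GRW_der {Γ : Subgroup SL(2, ℝ)} {ε : ℝ} {B : ℕ → ℝ} {D : Dyn} (hD : OKG Γ ε B D) (E E' t : ℝ) (g g' : SL(2, ℝ))
    (hE : |E| ≤ ε) (hE' : |E'| ≤ ε) (r k r' k' : ℝ) (hr : r = rho D.U E (D.fl E t g)) (hk : k = kap D.U E (D.fl E t g))
    (hr' : r' = rho D.U E' (D.fl E' t g')) (hk' : k' = kap D.U E' (D.fl E' t g')) :
  HasDerivAt (fun s => (Xt D E E' g g' s).1 0 0) ((r' - r) / 2 * (Xt D E E' g g' t).1 0 0 - (k' * (Xt D E E' g g' t).1 0 1 + k * (Xt D E E' g g' t).1 1 0) / 2) t ∧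
  HasDerivAt (fun s => (Xt D E E' g g' s).1 0 1) (-((r + r') / 2 * (Xt D E E' g g' t).1 0 1) + (k' * (Xt D E E' g g' t).1 0 0 - k * (Xt D E E' g g' t).1 1 1) / 2) t ∧
  HasDerivAt (fun s => (Xt D E E' g g' s).1 1 0) ((r + r') / 2 * (Xt D E E' g g' t).1 1 0 + (k * (Xt D E E' g g' t).1 0 0 - k' * (Xt D E E' g g' t).1 1 1) / 2) t ∧
  HasDerivAt (fun s => (Xt D E E' g g' s).1 1 1) (-((r' - r) / 2 * (Xt D E E' g g' t).1 1 1) + (k' * (Xt D E E' g g' t).1 1 0 + k * (Xt D E E' g g' t).1 0 1) / 2) t := by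
  have ha : ∀ i, HasDerivAt (fun s => (D.fl E s g).1 i 0)
      ((D.fl E t g).1 i 0 * (r / 2) - (D.fl E t g).1 i 1 * (k / 2)) t := by
    intro i
    have h := hD.dfl E t g hE i 0
    rw [(PD4_XX _ _ _ _ _).1, ← hr, ← hk] at h
    exact h
  have hb : ∀ i, HasDerivAt (fun s => (D.fl E s g).1 i 1)
      ((D.fl E t g).1 i 0 * (k / 2) - (D.fl E t g).1 i 1 * (r / 2)) t := by
    intro i
    have h := hD.dfl E t g hE i 1
    rw [(PD4_XX _ _ _ _ _).2, ← hr, ← hk] at h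
    exact h
  have ha' : ∀ i, HasDerivAt (fun s => (D.fl E' s g').1 i 0)
      ((D.fl E' t g').1 i 0 * (r' / 2) - (D.fl E' t g').1 i 1 * (k' / 2)) t := by
    intro i
    have h := hD.dfl E' t g' hE' i 0
    rw [(PD4_XX _ _ _ _ _).1, ← hr', ← hk'] at h
    exact h
  have hb' : ∀ i, HasDerivAt (fun s => (D.fl E' s g').1 i 1)
      ((D.fl E' t g').1 i 0 * (k' / 2) - (D.fl E' t g').1 i 1 * (r' / 2)) t := by
    intro i
    have h := hD.dfl E' t g' hE' i 1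
    rw [(PD4_XX _ _ _ _ _).2, ← hr', ← hk'] at h
    exact h
  have hX : ∀ s, (Xt D E E' g g' s).1 0 0 = (D.fl E s g).1 1 1 * (D.fl E' s g').1 0 0 - (D.fl E s g).1 0 1 * (D.fl E' s g').1 1 0 ∧
    (Xt D E E' g g' s).1 0 1 = (D.fl E s g).1 1 1 * (D.fl E' s g').1 0 1 - (D.fl E s g).1 0 1 * (D.fl E' s g').1 1 1 ∧
    (Xt D E E' g g' s).1 1 0 = -((D.fl E s g).1 1 0 * (D.fl E' s g').1 0 0) + (D.fl E s g).1 0 0 * (D.fl E' s g').1 1 0 ∧
    (Xt D E E' g g' s).1 1 1 = -((D.fl E s g).1 1 0 * (D.fl E' s g').1 0 1) + (D.fl E s g).1 0 0 * (D.fl E' s g').1 1 1 :=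
    fun s => PD4_ent _ _
  have e00 : (fun s => (Xt D E E' g g' s).1 0 0) =
      fun s => (D.fl E s g).1 1 1 * (D.fl E' s g').1 0 0 - (D.fl E s g).1 0 1 * (D.fl E' s g').1 1 0 :=
    funext fun s => (hX s).1
  have e01 : (fun s => (Xt D E E' g g' s).1 0 1) =
      fun s => (D.fl E s g).1 1 1 * (D.fl E' s g').1 0 1 - (D.fl E s g).1 0 1 * (D.fl E' s g').1 1 1 :=
    funext fun s => (hX s).2.1
  have e10 : (fun s => (Xt D E E' g g' s).1 1 0) =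
      fun s => -((D.fl E s g).1 1 0 * (D.fl E' s g').1 0 0) + (D.fl E s g).1 0 0 * (D.fl E' s g').1 1 0 :=
    funext fun s => (hX s).2.2.1
  have e11 : (fun s => (Xt D E E' g g' s).1 1 1) =
      fun s => -((D.fl E s g).1 1 0 * (D.fl E' s g').1 0 1) + (D.fl E s g).1 0 0 * (D.fl E' s g').1 1 1 :=
    funext fun s => (hX s).2.2.2
  obtain ⟨x00, x01, x10, x11⟩ := hX t
  rw [e00, e01, e10, e11, x00, x01, x10, x11]
  refine ⟨?_, ?_, ?_, ?_⟩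
  · refine (((hb 1).mul (ha' 0)).sub ((hb 0).mul (ha' 1))).congr_deriv ?_
    ring
  · refine (((hb 1).mul (hb' 0)).sub ((hb 0).mul (hb' 1))).congr_deriv ?_
    ring
  · refine (((ha 1).mul (ha' 0)).neg.add ((ha 0).mul (ha' 1))).congr_deriv ?_
    ring
  · refine (((ha 1).mul (hb' 0)).neg.add ((ha 0).mul (hb' 1))).congr_deriv ?_
    ring

theorem GRW_a {C M N e r r' k k' a b c : ℝ} (hr1 : 0 ≤ r) (hr2 : r ≤ M) (hr1' : 0 ≤ r') (hr2' : r' ≤ M)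
    (hk : |k| ≤ M) (hk' : |k'| ≤ M) (hrr : |r' - r| ≤ C * (N + e)) (ha : |a - 1| ≤ N) (hb : |b| ≤ N) (hc : |c| ≤ N) (he : 0 ≤ e) (hC : 0 ≤ C) :
    |(r' - r) / 2 * a - (k' * b + k * c) / 2| ≤ (2 * M + C) * (N + e) := by
  have hN : 0 ≤ N := (abs_nonneg _).trans hb
  have hM : 0 ≤ M := hr1.trans hr2
  have h6 : 0 ≤ M * N := mul_nonneg hM hN
  have h7 : 0 ≤ M * e := mul_nonneg hM he
  have h0 : |r' - r| ≤ M := by
    rw [abs_le]
    constructor <;> linarith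
  have h1 := abs_le.1 (GRW_m h0 ha)
  have h2 := abs_le.1 hrr
  have h3 := abs_le.1 (GRW_m hk' hb)
  have h4 := abs_le.1 (GRW_m hk hc)
  have h5 : 0 ≤ C * (N + e) := by positivity
  rw [abs_le]
  constructor <;> linarith [h1.1, h1.2, h2.1, h2.2, h3.1, h3.2, h4.1, h4.2]

theorem GRW_c {C M N e r r' k k' a c x : ℝ} (hr1 : 0 ≤ r) (hr2 : r ≤ M) (hr1' : 0 ≤ r') (hr2' : r' ≤ M)
    (hk : |k| ≤ M) (hk' : |k'| ≤ M) (hkk : |k' - k| ≤ C * (N + e)) (ha : |a - 1| ≤ N) (hc : |c| ≤ N) (hx : |x - 1| ≤ N) (he : 0 ≤ e) (hC : 0 ≤ C) :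
    |(r + r') / 2 * c + (k * a - k' * x) / 2| ≤ (2 * M + C) * (N + e) := by
  have hN : 0 ≤ N := (abs_nonneg _).trans hc
  have hM : 0 ≤ M := hr1.trans hr2
  have h6 : 0 ≤ M * N := mul_nonneg hM hN
  have h7 : 0 ≤ M * e := mul_nonneg hM he
  have h0 : |(r + r') / 2| ≤ M := by
    rw [abs_le]
    constructor <;> linarith
  have h1 := abs_le.1 (GRW_m h0 hc)
  have h2 := abs_le.1 hkk
  have h3 := abs_le.1 (GRW_m hk' hx)
  have h4 := abs_le.1 (GRW_m hk ha)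
  have h5 : 0 ≤ C * (N + e) := by positivity
  rw [abs_le]
  constructor <;> linarith [h1.1, h1.2, h2.1, h2.2, h3.1, h3.2, h4.1, h4.2]

/-- The four entries of `x - 1`; its norm is `nm x`. -/
def GRW_v (x : SL(2, ℝ)) : (ℝ × ℝ) × (ℝ × ℝ) := ((x.1 0 0 - 1, x.1 0 1), (x.1 1 0, x.1 1 1 - 1))

theorem GRW_norm (x : SL(2, ℝ)) : ‖GRW_v x‖ = nm x := by
  simp only [GRW_v, Prod.norm_def, Real.norm_eq_abs, Pool.Agent.VQE.nm]

theorem GRW_entries (x : SL(2, ℝ)) : |x.1 0 0 - 1| ≤ nm x ∧ |x.1 0 1| ≤ nm x ∧ |x.1 1 0| ≤ nm x ∧ |x.1 1 1 - 1| ≤ nm x :=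
  ⟨(le_max_left _ _).trans (le_max_left _ _), (le_max_right _ _).trans (le_max_left _ _),
    (le_max_left _ _).trans (le_max_right _ _), (le_max_right _ _).trans (le_max_right _ _)⟩

theorem GRW_M {ε b r k n : ℝ} (hε : 0 < ε) (h1 : 0 < r) (h3 : 2 * ε ≤ r ^ 2) (h4 : r ^ 2 ≤ b + 2 * ε) (h5 : k * r = n / 2) (hn : |n| ≤ b) :
    r ≤ Real.sqrt (|b| + 2 * ε) + |b| / (2 * Real.sqrt (2 * ε)) ∧ |k| ≤ Real.sqrt (|b| + 2 * ε) + |b| / (2 * Real.sqrt (2 * ε)) := by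
  have hs : 0 < Real.sqrt (2 * ε) := Real.sqrt_pos.2 (by linarith)
  have ha : 0 ≤ Real.sqrt (|b| + 2 * ε) := Real.sqrt_nonneg _
  have hb : 0 ≤ |b| / (2 * Real.sqrt (2 * ε)) := by positivity
  have hbb := le_abs_self b
  constructor
  · have h6 : r ≤ Real.sqrt (|b| + 2 * ε) := Real.le_sqrt_of_sq_le (by linarith)
    linarith
  · have h7 : Real.sqrt (2 * ε) ≤ r := by
      rw [Real.sqrt_le_left h1.le]
      exact h3
    have h8 : |k| * r ≤ |b| / 2 := by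
      rw [← abs_of_pos h1, ← abs_mul, h5, abs_div, abs_two]
      linarith
    have h9 : |k| * Real.sqrt (2 * ε) ≤ |b| / 2 := (mul_le_mul_of_nonneg_left h7 (abs_nonneg k)).trans h8
    have h10 : |k| ≤ |b| / (2 * Real.sqrt (2 * ε)) := by
      rw [le_div_iff₀ (by positivity)]
      linarith
    linarith

theorem GRW_proof (hLPZ : LPZ_stmt) (hVUG : VUG_stmt) : GRW_stmt := by
  intro ε b hε
  obtain ⟨C, hC, hLP⟩ := hLPZ ε b hε
  set M : ℝ := Real.sqrt (|b| + 2 * ε) + |b| / (2 * Real.sqrt (2 * ε)) with hMdef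
  have hM0 : 0 ≤ M := by positivity
  refine ⟨2 * M + C, by linarith, ?_⟩
  intro Γ B D hB0 hB1 hB2 hD E E' t g g' hE hE'
  set e : ℝ := |E' - E| with he
  have he0 : 0 ≤ e := abs_nonneg _
  obtain ⟨hU, hV, -⟩ := hVUG Γ ε B D.U hD.pot
  have hbd : ∀ (E : ℝ) (g : SL(2, ℝ)), |E| ≤ ε → 0 ≤ rho D.U E g ∧ rho D.U E g ≤ M ∧ |kap D.U E g| ≤ M := by
    intro E g hE
    obtain ⟨v1, v2, v3, v4, v5⟩ := hV E g hE
    obtain ⟨w1, w2, w3, w4, w5, w6⟩ := hU g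
    have hm := GRW_M hε v1 v3 (v4.trans (by linarith)) v5 (w4.trans hB1)
    exact ⟨v1.le, hm.1, hm.2⟩
  let X : ℝ → SL(2, ℝ) := fun s => Xt D E E' g g' s
  let r : ℝ → ℝ := fun s => rho D.U E (D.fl E s g)
  let k : ℝ → ℝ := fun s => kap D.U E (D.fl E s g)
  let r' : ℝ → ℝ := fun s => rho D.U E' (D.fl E' s g')
  let k' : ℝ → ℝ := fun s => kap D.U E' (D.fl E' s g')
  let u' : ℝ → (ℝ × ℝ) × (ℝ × ℝ) := fun s =>
    (((r' s - r s) / 2 * (X s).1 0 0 - (k' s * (X s).1 0 1 + k s * (X s).1 1 0) / 2,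
      -((r s + r' s) / 2 * (X s).1 0 1) + (k' s * (X s).1 0 0 - k s * (X s).1 1 1) / 2),
     ((r s + r' s) / 2 * (X s).1 1 0 + (k s * (X s).1 0 0 - k' s * (X s).1 1 1) / 2,
      -((r' s - r s) / 2 * (X s).1 1 1) + (k' s * (X s).1 1 0 + k s * (X s).1 0 1) / 2))
  have hu : ∀ s, HasDerivAt (fun s => GRW_v (X s)) (u' s) s := by
    intro s
    obtain ⟨h1, h2, h3, h4⟩ := GRW_der hD E E' s g g' hE hE' (r s) (k s) (r' s) (k' s) rfl rfl rfl rfl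
    exact ((h1.sub_const 1).prodMk h2).prodMk (h3.prodMk (h4.sub_const 1))
  have hb : ∀ s, ‖u' s‖ ≤ (2 * M + C) * (‖GRW_v (X s)‖ + e) := by
    intro s
    have hgx : D.fl E s g * X s = D.fl E' s g' := by
      show D.fl E s g * ((D.fl E s g)⁻¹ * D.fl E' s g') = D.fl E' s g'
      rw [mul_inv_cancel_left]
    have hL := hLP Γ B D.U hB0 hB1 hB2 hD.pot E E' (D.fl E s g) (X s) hE hE'
    rw [hgx] at hL
    obtain ⟨hrr, hkk⟩ := hL
    obtain ⟨hr1, hr2, hk1⟩ := hbd E (D.fl E s g) hE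
    obtain ⟨hr1', hr2', hk1'⟩ := hbd E' (D.fl E' s g') hE'
    obtain ⟨h1, h2, h3, h4⟩ := GRW_entries (X s)
    rw [GRW_norm, Prod.norm_def, Prod.norm_def, Prod.norm_def]
    refine max_le (max_le ?_ ?_) (max_le ?_ ?_)
    · exact GRW_a hr1 hr2 hr1' hr2' hk1 hk1' hrr h1 h2 h3 he0 (by linarith)
    · have h := GRW_c (a := (X s).1 1 1) (c := (X s).1 0 1) (x := (X s).1 0 0) hr1 hr2 hr1' hr2' hk1 hk1' hkk h4 h2 h1 he0 (by linarith)
      rw [Real.norm_eq_abs, ← abs_neg]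
      refine le_of_eq_of_le ?_ h
      congr 1
      ring
    · exact GRW_c hr1 hr2 hr1' hr2' hk1 hk1' hkk h1 h3 h4 he0 (by linarith)
    · have h := GRW_a (a := (X s).1 1 1) (b := (X s).1 1 0) (c := (X s).1 0 1) hr1 hr2 hr1' hr2' hk1 hk1' hrr h4 h3 h2 he0 (by linarith)
      rw [Real.norm_eq_abs, ← abs_neg]
      refine le_of_eq_of_le ?_ h
      congr 1
      ring
  have h := GRW_gron (fun s => GRW_v (X s)) u' hu (2 * M + C) e (by linarith) he0 hb t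
  rw [GRW_norm, GRW_norm] at h
  have h0 : X 0 = g⁻¹ * g' := by
    show (D.fl E 0 g)⁻¹ * D.fl E' 0 g' = g⁻¹ * g'
    rw [hD.fl0, hD.fl0]
  rw [h0] at h
  exact h

end Pool.Agent.VQ
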