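import Pool.Agent.helper80.VQ.SpecFL

/-!
# Row vq:MPG (MP_07c750_an, project VQ, block FL): the flow preserves the measure
-/

set_option autoImplicit false

open scoped MatrixGroups ContDiff Topology UpperHalfPlane ComplexConjugate ENNReal
open UpperHalfPlane MeasureTheory Filter Set

namespace Pool.Agent.VQ

open Pool.Agent.RS
open Pool.Agent.VQE (nm)

theorem MPG_slice {e C E : ℝ} {U : ℍ → ℝ} {fl : ℝ → ℝ → SL(2, ℝ) → SL(2, ℝ)} {ρ κ : F4 × ℝ → ℝ} {Φ : ℝ → F4 × ℝ → F4 × ℝ}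
    (hF : Fw4 e C U fl ρ κ Φ) : CRO.IsC1Flow (fun z : F4 => (f4 ρ κ (z, E)).1) (fun t z => (Φ t (z, E)).1) := by
  have h1 : ∀ t z, Φ t (z, E) = ((Φ t (z, E)).1, E) := fun t z => Prod.ext rfl (hF.dt t (z, E)).1
  have hd : ∀ t z, DifferentiableAt ℝ (Φ t) (z, E) := fun t z => hF.flow.diff t (z, E)
  have hin : ∀ z : F4, HasFDerivAt (fun w : F4 => (w, E)) (ContinuousLinearMap.inl ℝ F4 ℝ) z := fun z => hasFDerivAt_prodMk_left z E
  have hD1 : ∀ t z, HasFDerivAt (fun w : F4 => (Φ t (w, E)).1)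
      ((ContinuousLinearMap.fst ℝ F4 ℝ).comp ((fderiv ℝ (Φ t) (z, E)).comp (ContinuousLinearMap.inl ℝ F4 ℝ))) z := by
    intro t z
    exact (ContinuousLinearMap.fst ℝ F4 ℝ).hasFDerivAt.comp z (((hd t z).hasFDerivAt).comp z (hin z))
  have hfd : ∀ t z, fderiv ℝ (fun w : F4 => (Φ t (w, E)).1) z =
      (ContinuousLinearMap.fst ℝ F4 ℝ).comp ((fderiv ℝ (Φ t) (z, E)).comp (ContinuousLinearMap.inl ℝ F4 ℝ)) := fun t z => (hD1 t z).fderiv
  have hsnd : ∀ t z v, (fderiv ℝ (Φ t) (z, E) v).2 = v.2 := by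
    intro t z v
    have ha : HasFDerivAt (fun y : F4 × ℝ => (Φ t y).2) ((ContinuousLinearMap.snd ℝ F4 ℝ).comp (fderiv ℝ (Φ t) (z, E))) (z, E) :=
      (ContinuousLinearMap.snd ℝ F4 ℝ).hasFDerivAt.comp (z, E) (hd t z).hasFDerivAt
    have hb : HasFDerivAt (fun y : F4 × ℝ => (Φ t y).2) (ContinuousLinearMap.snd ℝ F4 ℝ) (z, E) := by
      have : (fun y : F4 × ℝ => (Φ t y).2) = fun y : F4 × ℝ => y.2 := funext fun y => (hF.dt t y).1
      rw [this]
      exact (ContinuousLinearMap.snd ℝ F4 ℝ).hasFDerivAt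
    have hc := ha.unique hb
    have := congrArg (fun L : F4 × ℝ →L[ℝ] ℝ => L v) hc
    exact this
  have hsm : ∀ y, DifferentiableAt ℝ (f4 ρ κ) y := by
    intro y
    have hρ : Differentiable ℝ ρ := hF.ex.sr.differentiable (by simp)
    have hκ : Differentiable ℝ κ := hF.ex.sk.differentiable (by simp)
    have : Differentiable ℝ (f4 ρ κ) := by
      unfold f4 mu4
      refine Differentiable.prodMk ?_ (differentiable_const _)
      rw [differentiable_pi]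
      intro i
      fin_cases i <;> simp <;> fun_prop
    exact this y
  have hf1 : ∀ z : F4, HasFDerivAt (fun w : F4 => (f4 ρ κ (w, E)).1)
      ((ContinuousLinearMap.fst ℝ F4 ℝ).comp ((fderiv ℝ (f4 ρ κ) (z, E)).comp (ContinuousLinearMap.inl ℝ F4 ℝ))) z := by
    intro z
    exact (ContinuousLinearMap.fst ℝ F4 ℝ).hasFDerivAt.comp z (((hsm (z, E)).hasFDerivAt).comp z (hin z))
  have hflow : CRO.IsFlow (fun z : F4 => (f4 ρ κ (z, E)).1) (fun t z => (Φ t (z, E)).1) := by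
    refine ⟨?_, ?_, ?_, ?_⟩
    · intro x
      show (Φ 0 (x, E)).1 = x
      rw [hF.flow.zero]
    · intro x t
      have h2 := (ContinuousLinearMap.fst ℝ F4 ℝ).hasFDerivAt.comp_hasDerivAt t (hF.flow.ode (x, E) t)
      have h3 : f4 ρ κ (Φ t (x, E)) = f4 ρ κ ((Φ t (x, E)).1, E) := by rw [← h1 t x]
      rw [h3] at h2
      exact h2
    · intro s t x
      show (Φ (s + t) (x, E)).1 = (Φ s ((Φ t (x, E)).1, E)).1
      rw [hF.flow.add, ← h1 t x]
    · have hc := hF.flow.cont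
      exact continuous_fst.comp (hc.comp (Continuous.prodMk continuous_fst (Continuous.prodMk continuous_snd continuous_const)))
  refine { hflow with diff := ?_, var := ?_, dcont := ?_ }
  · intro t x
    exact (hD1 t x).differentiableAt
  · intro x t
    have hv := hF.flow.var (x, E) t
    have h2 : HasDerivAt (fun s => (ContinuousLinearMap.fst ℝ F4 ℝ).comp ((fderiv ℝ (Φ s) (x, E)).comp (ContinuousLinearMap.inl ℝ F4 ℝ)))
        ((ContinuousLinearMap.fst ℝ F4 ℝ).comp ((((fderiv ℝ (f4 ρ κ) (Φ t (x, E))).comp (fderiv ℝ (Φ t) (x, E)))).comp (ContinuousLinearMap.inl ℝ F4 ℝ))) t := by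
      have h3 := (hasDerivAt_const t (ContinuousLinearMap.fst ℝ F4 ℝ)).clm_comp (hv.clm_comp (hasDerivAt_const t (ContinuousLinearMap.inl ℝ F4 ℝ)))
      have h4 : ∀ (a b : F4 →L[ℝ] F4), a = b → HasDerivAt (fun s => (ContinuousLinearMap.fst ℝ F4 ℝ).comp ((fderiv ℝ (Φ s) (x, E)).comp (ContinuousLinearMap.inl ℝ F4 ℝ))) a t →
          HasDerivAt (fun s => (ContinuousLinearMap.fst ℝ F4 ℝ).comp ((fderiv ℝ (Φ s) (x, E)).comp (ContinuousLinearMap.inl ℝ F4 ℝ))) b t := fun a b hab h => hab ▸ h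
      refine h4 _ _ ?_ h3
      simp
    have h5 : (fun s => fderiv ℝ (fun w : F4 => (Φ s (w, E)).1) x) =
        fun s => (ContinuousLinearMap.fst ℝ F4 ℝ).comp ((fderiv ℝ (Φ s) (x, E)).comp (ContinuousLinearMap.inl ℝ F4 ℝ)) := funext fun s => hfd s x
    show HasDerivAt (fun s => fderiv ℝ (fun w : F4 => (Φ s (w, E)).1) x)
      ((fderiv ℝ (fun z : F4 => (f4 ρ κ (z, E)).1) ((Φ t (x, E)).1)).comp (fderiv ℝ (fun w : F4 => (Φ t (w, E)).1) x)) t
    rw [h5, hfd t x, (hf1 ((Φ t (x, E)).1)).fderiv, ← h1 t x]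
    have h6 : (ContinuousLinearMap.fst ℝ F4 ℝ).comp ((((fderiv ℝ (f4 ρ κ) (Φ t (x, E))).comp (fderiv ℝ (Φ t) (x, E)))).comp (ContinuousLinearMap.inl ℝ F4 ℝ)) =
        ((ContinuousLinearMap.fst ℝ F4 ℝ).comp ((fderiv ℝ (f4 ρ κ) (Φ t (x, E))).comp (ContinuousLinearMap.inl ℝ F4 ℝ))).comp
          ((ContinuousLinearMap.fst ℝ F4 ℝ).comp ((fderiv ℝ (Φ t) (x, E)).comp (ContinuousLinearMap.inl ℝ F4 ℝ))) := by
      refine ContinuousLinearMap.ext fun v => ?_
      show (fderiv ℝ (f4 ρ κ) (Φ t (x, E)) (fderiv ℝ (Φ t) (x, E) (v, 0))).1 =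
        (fderiv ℝ (f4 ρ κ) (Φ t (x, E)) ((fderiv ℝ (Φ t) (x, E) (v, 0)).1, 0)).1
      have h7 : fderiv ℝ (Φ t) (x, E) (v, 0) = ((fderiv ℝ (Φ t) (x, E) (v, 0)).1, 0) := Prod.ext rfl (hsnd t x (v, 0))
      rw [← h7]
    rw [← h6]
    exact h2
  · have hc := hF.flow.dcont
    have h2 : (fun q : ℝ × F4 => fderiv ℝ (fun w : F4 => (Φ q.1 (w, E)).1) q.2) =
        fun q : ℝ × F4 => (ContinuousLinearMap.fst ℝ F4 ℝ).comp ((fderiv ℝ (Φ q.1) (q.2, E)).comp (ContinuousLinearMap.inl ℝ F4 ℝ)) := funext fun q => hfd q.1 q.2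
    show Continuous (fun q : ℝ × F4 => fderiv ℝ (fun w : F4 => (Φ q.1 (w, E)).1) q.2)
    rw [h2]
    exact continuous_const.clm_comp ((hc.comp (Continuous.prodMk continuous_fst (Continuous.prodMk continuous_snd continuous_const))).clm_comp continuous_const)

theorem MPG_hom {Γ : Subgroup SL(2, ℝ)} {e C E : ℝ} {B : ℕ → ℝ} {D : Dyn} {ρ κ : F4 × ℝ → ℝ} {Φ : ℝ → F4 × ℝ → F4 × ℝ}
    (hD : OKG Γ e B D) (hF : Fw4 e C D.U D.fl ρ κ Φ) (hE : |E| ≤ e) (l : ℝ) (h9 : 9 / 10 < l) (h11 : l < 11 / 10) (t : ℝ) (g : SL(2, ℝ)) :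
    (Φ t (l • m4 g, E)).1 = l • m4 (D.fl E t g) := by
  have h := hF.un (fun s => (l • m4 (D.fl E s g), E)) ?_ t
  · have h3 : ((l • m4 (D.fl E t g), E) : F4 × ℝ) = Φ t (l • m4 (D.fl E 0 g), E) := h
    rw [hD.fl0] at h3
    rw [← h3]
  · intro s
    have heq := hF.ex.eq E l (D.fl E s g) hE h9.le h11.le
    have hd := hD.dfl E s g hE
    show HasDerivAt (fun s => ((l • m4 (D.fl E s g), E) : F4 × ℝ)) (mu4 (l • m4 (D.fl E s g)) (ρ (l • m4 (D.fl E s g), E) / 2) (κ (l • m4 (D.fl E s g), E) / 2)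
      (-(κ (l • m4 (D.fl E s g), E) / 2)), 0) s
    rw [heq.1, heq.2]
    refine HasDerivAt.prodMk ?_ (hasDerivAt_const s E)
    rw [hasDerivAt_pi]
    intro i
    have h00 := (hd 0 0).const_mul l
    have h01 := (hd 0 1).const_mul l
    have h10 := (hd 1 0).const_mul l
    have h11 := (hd 1 1).const_mul l
    simp only [XX, A0, K0, Matrix.mul_apply, Fin.sum_univ_two, Matrix.add_apply, Matrix.smul_apply, Matrix.of_apply, Matrix.cons_val', Matrix.cons_val_zero,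
      Matrix.cons_val_one, Matrix.empty_val', Matrix.cons_val_fin_one, smul_eq_mul] at h00 h01 h10 h11
    fin_cases i
    · refine h00.congr_deriv ?_
      simp [mu4, m4]
      ring
    · refine h01.congr_deriv ?_
      simp [mu4, m4]
      ring
    · refine h10.congr_deriv ?_
      simp [mu4, m4]
      ring
    · refine h11.congr_deriv ?_
      simp [mu4, m4]
      ring

theorem MPG_proof (hFLU : FLU_stmt) (hFLA : FLA_stmt) (hLVP : LVP_stmt) (hTRZ : TRZ_stmt) (hLMP : LMP_stmt) (hHAC : HAC_stmt) : MPG_stmt := by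
  intro Γ e B D hD E t hE
  obtain ⟨⟨C, ρ, κ, Φ, hF⟩, -⟩ := hFLU Γ e B D hD
  obtain ⟨hadd, -, -, -⟩ := hFLA Γ e B D hD E hE
  obtain ⟨-, -, -, hmeas, -, -⟩ := hLMP
  obtain ⟨c, -, -, hc⟩ := hHAC
  have hcont : ∀ s, Continuous (D.fl E s) := by
    intro s
    exact hD.cfl.comp_continuous (Continuous.prodMk continuous_const (Continuous.prodMk continuous_const continuous_id)) (fun g => hE)
  have hinv : ∀ s g, D.fl E s (D.fl E (-s) g) = g := by
    intro s g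
    rw [← hadd, add_neg_cancel, hD.fl0]
  have hslice := MPG_slice (E := E) hF
  have hS : ∀ s, ∀ x ∈ cn4 univ, (Φ s (x, E)).1 ∈ cn4 univ := by
    rintro s x ⟨l, h9, h11, g, -, rfl⟩
    exact ⟨l, h9, h11, D.fl E s g, mem_univ _, MPG_hom hD hF hE l h9 h11 s g⟩
  have hdiv : ∀ x ∈ cn4 univ, ∑ i, fderiv ℝ (fun z : F4 => (f4 ρ κ (z, E)).1) x (Pi.single i 1) i = 0 := by
    rintro x ⟨l, h9, h11, g, -, rfl⟩
    exact hTRZ Γ e C B D.U ρ κ hD.pot hF.ex E l g hE h9.le h11.le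
  refine ⟨(hcont t).measurable, ?_⟩
  ext A hA
  rw [Measure.map_apply (hcont t).measurable hA, hc _ ((hcont t).measurable hA), hc _ hA]
  have hsub : cn4 A ⊆ cn4 univ := by
    rintro x ⟨l, h9, h11, g, -, rfl⟩
    exact ⟨l, h9, h11, g, mem_univ _, rfl⟩
  have hv := hLVP (fun z : F4 => (f4 ρ κ (z, E)).1) (fun s z => (Φ s (z, E)).1) (cn4 univ) (cn4 A) hslice hS hdiv (hmeas A hA) hsub t
  have hset : (fun z : F4 => (Φ t (z, E)).1) ⁻¹' cn4 A = cn4 (D.fl E t ⁻¹' A) := by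
    ext x
    constructor
    · rintro ⟨l, h9, h11, g, hg, hx⟩
      have h1 : x = (Φ (-t) ((Φ t (x, E)).1, E)).1 := by
        have := hslice.add (-t) t x
        have h2 : (Φ (-t + t) (x, E)).1 = (Φ (-t) ((Φ t (x, E)).1, E)).1 := this
        rw [← h2, neg_add_cancel, hF.flow.zero]
      have hx' : (Φ t (x, E)).1 = l • m4 g := hx
      rw [hx', MPG_hom hD hF hE l h9 h11 (-t) g] at h1
      refine ⟨l, h9, h11, D.fl E (-t) g, ?_, h1⟩
      show D.fl E t (D.fl E (-t) g) ∈ A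
      rw [hinv]
      exact hg
    · rintro ⟨l, h9, h11, g, hg, rfl⟩
      exact ⟨l, h9, h11, D.fl E t g, hg, MPG_hom hD hF hE l h9 h11 t g⟩
  have hv' : volume ((fun z : F4 => (Φ t (z, E)).1) ⁻¹' cn4 A) = volume (cn4 A) := hv
  rw [← hset, hv']

end Pool.Agent.VQ
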