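import Pool.Agent.helper80.VQ.SpecFL

/-!
# Row vq:TRZ (MP_07c750_an, project VQ, block FL): the divergence vanishes
-/

set_option autoImplicit false

open scoped MatrixGroups ContDiff Topology UpperHalfPlane ComplexConjugate ENNReal
open UpperHalfPlane MeasureTheory Filter Set

namespace Pool.Agent.VQ

open Pool.Agent.RS
open Pool.Agent.VQE (nm)

theorem TRZ_lin (L : F4 × ℝ →L[ℝ] ℝ) (a b c d : ℝ) : L (![a, b, c, d], 0) =
    a * L (Pi.single 0 1, 0) + b * L (Pi.single 1 1, 0) + c * L (Pi.single 2 1, 0) + d * L (Pi.single 3 1, 0) := by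
  have h : ((![a, b, c, d], 0) : F4 × ℝ) = a • ((Pi.single 0 1, 0) : F4 × ℝ) + b • ((Pi.single 1 1, 0) : F4 × ℝ) +
      c • ((Pi.single 2 1, 0) : F4 × ℝ) + d • ((Pi.single 3 1, 0) : F4 × ℝ) := by
    refine Prod.ext ?_ (by simp)
    funext i
    fin_cases i <;> simp
  rw [h, map_add, map_add, map_add, map_smul, map_smul, map_smul, map_smul]
  simp only [smul_eq_mul]

theorem TRZ_sum {ρ κ : F4 × ℝ → ℝ} (hρ : Differentiable ℝ ρ) (hκ : Differentiable ℝ κ) (E : ℝ) (x : F4) :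
    ∑ i, fderiv ℝ (fun z : F4 => (f4 ρ κ (z, E)).1) x (Pi.single i 1) i =
      fderiv ℝ ρ (x, E) (mu4 x (1 / 2) 0 0, 0) + fderiv ℝ κ (x, E) (mu4 x 0 (1 / 2) (-(1 / 2)), 0) := by
  have hin : HasFDerivAt (fun w : F4 => (w, E)) (ContinuousLinearMap.inl ℝ F4 ℝ) x := hasFDerivAt_prodMk_left x E
  have h1 : HasFDerivAt (fun z : F4 => ρ (z, E)) ((fderiv ℝ ρ (x, E)).comp (ContinuousLinearMap.inl ℝ F4 ℝ)) x :=
    (hρ (x, E)).hasFDerivAt.comp x hin
  have h2 : HasFDerivAt (fun z : F4 => κ (z, E)) ((fderiv ℝ κ (x, E)).comp (ContinuousLinearMap.inl ℝ F4 ℝ)) x :=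
    (hκ (x, E)).hasFDerivAt.comp x hin
  have h1' := h1.mul_const (1 / 2 : ℝ)
  have h2' := h2.mul_const (1 / 2 : ℝ)
  have hc : ∀ i : Fin 4, HasFDerivAt (fun z : F4 => z i) (ContinuousLinearMap.proj (R := ℝ) (φ := fun _ : Fin 4 => ℝ) i) x := fun i => hasFDerivAt_apply i x
  have hdiff : DifferentiableAt ℝ (fun z : F4 => (f4 ρ κ (z, E)).1) x := by
    have : Differentiable ℝ (fun z : F4 => (f4 ρ κ (z, E)).1) := by
      unfold f4 mu4
      rw [differentiable_pi]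
      intro i
      fin_cases i <;> simp <;> fun_prop
    exact this x
  have hcomp : ∀ (i : Fin 4) (v : F4), fderiv ℝ (fun z : F4 => (f4 ρ κ (z, E)).1) x v i = fderiv ℝ (fun z : F4 => (f4 ρ κ (z, E)).1 i) x v := by
    intro i v
    have h := (ContinuousLinearMap.proj (R := ℝ) (φ := fun _ : Fin 4 => ℝ) i).hasFDerivAt.comp x hdiff.hasFDerivAt
    have h' : HasFDerivAt (fun z : F4 => (f4 ρ κ (z, E)).1 i)
        ((ContinuousLinearMap.proj (R := ℝ) (φ := fun _ : Fin 4 => ℝ) i).comp (fderiv ℝ (fun z : F4 => (f4 ρ κ (z, E)).1) x)) x := h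
    rw [h'.fderiv]
    rfl
  have k0 := (((hc 0).mul h1').sub ((hc 1).mul h2')).congr_of_eventuallyEq (f₁ := fun z : F4 => (f4 ρ κ (z, E)).1 0) (Filter.Eventually.of_forall fun z => by
    simp [f4, mu4]
    ring)
  have k1 := (((hc 0).mul h2').sub ((hc 1).mul h1')).congr_of_eventuallyEq (f₁ := fun z : F4 => (f4 ρ κ (z, E)).1 1) (Filter.Eventually.of_forall fun z => by
    simp [f4, mu4]
    ring)
  have k2 := (((hc 2).mul h1').sub ((hc 3).mul h2')).congr_of_eventuallyEq (f₁ := fun z : F4 => (f4 ρ κ (z, E)).1 2) (Filter.Eventually.of_forall fun z => by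
    simp [f4, mu4]
    ring)
  have k3 := (((hc 2).mul h2').sub ((hc 3).mul h1')).congr_of_eventuallyEq (f₁ := fun z : F4 => (f4 ρ κ (z, E)).1 3) (Filter.Eventually.of_forall fun z => by
    simp [f4, mu4]
    ring)
  rw [Fin.sum_univ_four, hcomp, hcomp, hcomp, hcomp, k0.fderiv, k1.fderiv, k2.fderiv, k3.fderiv]
  unfold mu4
  rw [TRZ_lin, TRZ_lin]
  simp [Pi.single_apply]
  ring

theorem TRZ_proof (hTAN : TAN_stmt) : TRZ_stmt := by
  intro Γ e C B U ρ κ hU hEx E l g hE h9 h11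
  rw [TRZ_sum (hEx.sr.differentiable (by simp)) (hEx.sk.differentiable (by simp))]
  have hs : ∀ p q r : ℝ, mu4 (l • m4 g) p q r = l • mu4 (m4 g) p q r := by
    intro p q r
    funext i
    fin_cases i <;> simp [mu4] <;> ring
  have t1 := (hTAN Γ e C B U ρ κ hU hEx E l 1 0 0 g hE h9 h11).1
  have t2 := (hTAN Γ e C B U ρ κ hU hEx E l 0 (1 / 2) (-(1 / 2)) g hE h9 h11).2
  rw [hs, hs, t1]
  have h0 : (0 : ℝ) / 2 = 0 := by norm_num
  rw [h0] at t2
  rw [t2]
  ring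

end Pool.Agent.VQ
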