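import Pool.Agent.helper80.VQ.SpecFL

/-!
# Row vq:HFB (MP_07c750_an, project VQ, block FL)
-/

set_option autoImplicit false

open scoped MatrixGroups ContDiff Topology UpperHalfPlane ComplexConjugate ENNReal
open UpperHalfPlane MeasureTheory Filter Set

namespace Pool.Agent.VQ

open Pool.Agent.RS
open Pool.Agent.VQE (nm)

theorem HFB_proof (hFLA : FLA_stmt) (hFLD : FLD_stmt) (hPGV : PGV_stmt) : HFA_stmt ∧ FLB_stmt := by
  refine ⟨?_, ?_⟩
  · intro Γ δ B D hD hδ E s t hE g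
    have hG := hPGV.2.1 Γ δ B D hD hδ
    obtain ⟨h1, h2, h3, h4⟩ := hFLA Γ (1 / 8) (Bx B) D hG E hE
    refine ⟨h1 s t g, fun γ => h2 γ t g, h3 t g, ?_⟩
    have h5 := hFLD Γ (1 / 8) (Bx B) D hG E t g hE
    have h6 : Real.sqrt (Bx B 0 + 2 * (1 / 8)) ≤ 6 / 5 := by
      have h7 : Bx B 0 = 11 / 10 := by simp [Bx]
      rw [h7, Real.sqrt_le_left (by norm_num)]
      norm_num
    exact h5.trans (mul_le_mul_of_nonneg_right h6 (abs_nonneg t))
  · intro Γ hΓ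
    refine ⟨1 / 10, by norm_num, fun B D hD E hE => ?_⟩
    obtain ⟨h1, h2, h3, h4⟩ := hFLA Γ (1 / 8) (Bx B) D (hPGV.2.1 Γ (1 / 10) B D hD le_rfl) E hE
    exact ⟨h1, h2, h4⟩

end Pool.Agent.VQ
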