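import Pool.Agent.helper80.VQ.SpecFL

/-!
# Row vq:HFM (MP_07c750_an, project VQ, block FL)
-/

set_option autoImplicit false

open scoped MatrixGroups ContDiff Topology UpperHalfPlane ComplexConjugate ENNReal
open UpperHalfPlane MeasureTheory Filter Set

namespace Pool.Agent.VQ

open Pool.Agent.RS
open Pool.Agent.VQE (nm)

theorem HFM_proof (hMPG : MPG_stmt) (hPGV : PGV_stmt) : HFM_stmt := by
  intro Γ δ B D hD hδ E t hE
  exact hMPG Γ (1 / 8) (Bx B) D (hPGV.2.1 Γ δ B D hD hδ) E t hE

end Pool.Agent.VQ
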