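import Pool.Agent.helper93.VQ.Spec4c
import Pool.Agent.helper80.VQ.SpecFL

/-!
# Row vq:RCD (MP_07c750_an, project VQ): `C¹` dependence for curves, from FLC
-/

set_option autoImplicit false

open scoped MatrixGroups ContDiff Topology UpperHalfPlane ComplexConjugate ENNReal
open UpperHalfPlane MeasureTheory Filter Set

namespace Pool.Agent.VQ

open Pool.Agent.RS
open Pool.Agent.VQE (nm)

theorem RCD_cont {γ : ℝ → SL(2, ℝ)} {x b c : ℝ → ℝ} (h : Cv γ x b c) : Continuous γ := by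
  have h1 : Continuous (fun s => (γ s).1) := by
    refine continuous_pi fun i => continuous_pi fun j => ?_
    exact continuous_iff_continuousAt.2 fun v => (h.der v i j).continuousAt
  exact continuous_induced_rng.2 h1

/-- the general form (for `OKG`) -/
theorem RCD_gen (hFLC : FLC_stmt) {Γ : Subgroup SL(2, ℝ)} {e : ℝ} {B : ℕ → ℝ} {D : Dyn} (hD : OKG Γ e B D) {E : ℝ} (hE : |E| ≤ e)
    {γ : ℝ → SL(2, ℝ)} {x b c : ℝ → ℝ} (h : Cv γ x b c) :
    ∃ X Y Z : ℝ → ℝ → ℝ, (∀ v, X 0 v = x v ∧ Y 0 v = b v ∧ Z 0 v = c v) ∧ (∀ v, VSol D E (γ v) (fun t => X t v) (fun t => Y t v) (fun t => Z t v)) ∧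
    ∀ t, Cv (fun v => D.fl E t (γ v)) (X t) (Y t) (Z t) := by
  obtain ⟨w, hwc, hw0, hwd⟩ := hFLC Γ e B D hD
  refine ⟨fun t v => w E t (γ v) 0 0 * x v + w E t (γ v) 0 1 * b v + w E t (γ v) 0 2 * c v,
    fun t v => w E t (γ v) 1 0 * x v + w E t (γ v) 1 1 * b v + w E t (γ v) 1 2 * c v,
    fun t v => w E t (γ v) 2 0 * x v + w E t (γ v) 2 1 * b v + w E t (γ v) 2 2 * c v, ?_, ?_, ?_⟩
  · intro v
    have h0 := (hw0 E (γ v) hE).1
    refine ⟨?_, ?_, ?_⟩
    · show w E 0 (γ v) 0 0 * x v + w E 0 (γ v) 0 1 * b v + w E 0 (γ v) 0 2 * c v = x v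
      rw [h0 0 0, h0 0 1, h0 0 2]
      simp
    · show w E 0 (γ v) 1 0 * x v + w E 0 (γ v) 1 1 * b v + w E 0 (γ v) 1 2 * c v = b v
      rw [h0 1 0, h0 1 1, h0 1 2]
      simp
    · show w E 0 (γ v) 2 0 * x v + w E 0 (γ v) 2 1 * b v + w E 0 (γ v) 2 2 * c v = c v
      rw [h0 2 0, h0 2 1, h0 2 2]
      simp
  · intro v
    exact (hw0 E (γ v) hE).2 (x v) (b v) (c v)
  · intro t
    have hcw : ∀ i j, Continuous (fun v => w E t (γ v) i j) := by
      intro i j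
      exact (hwc i j).comp_continuous (Continuous.prodMk continuous_const (Continuous.prodMk continuous_const (RCD_cont h))) (fun _ => hE)
    have hx := h.cx
    have hb := h.cb
    have hc := h.cc
    refine ⟨fun v i j => hwd E t hE γ v (x v) (b v) (c v) (fun i j => h.der v i j) i j, ?_, ?_, ?_⟩
    · exact (((hcw 0 0).mul hx).add ((hcw 0 1).mul hb)).add ((hcw 0 2).mul hc)
    · exact (((hcw 1 0).mul hx).add ((hcw 1 1).mul hb)).add ((hcw 1 2).mul hc)
    · exact (((hcw 2 0).mul hx).add ((hcw 2 1).mul hb)).add ((hcw 2 2).mul hc)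

theorem RCD_proof (hFLC : FLC_stmt) (hPGV : PGV_stmt) : RCD_stmt := by
  intro Γ hΓ
  refine ⟨1 / 10, by norm_num, fun δ B D hδ hD E γ x b c hE h => ?_⟩
  exact RCD_gen hFLC (hPGV.2.1 Γ δ B D hD hδ) (hE.trans (by norm_num)) h

end Pool.Agent.VQ
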