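import Pool.Agent.helper80.VQ.AllFL0
import Pool.Agent.helper80.VQ.FCV
import Pool.Agent.helper80.VQ.GRW
import Pool.Agent.helper80.VQ.HFM
import Pool.Agent.helper80.VQ.HFB
import Pool.Agent.helper80.VQ.RCD
import Pool.Agent.helper59.VQ.PGV
import Pool.Agent.helper47.VQ.FLC
import Pool.Agent.helper47.VQ.IDY
import Pool.Agent.helper27.VQ.FLG
import Pool.Agent.helper87.VQ.FFL

/-!
# MP_07c750_an, projects VQ and VN, block FL (the flow): ALL ROWS ARE CLOSED
-/

set_option autoImplicit false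

namespace Pool.Agent.VQ

theorem F_PGV : PGV_stmt := PGV_proof
theorem F_GRW : GRW_stmt := GRW_proof F_LPZ F_VUG
theorem F_FCV : FCV_stmt := FCV_proof F_TAN
theorem F_FLC : FLC_stmt := FLC_proof F_FLU F_FCV
theorem F_IDY : IDY_stmt := IDY_proof F_IDG F_PGV
theorem F_HFA : HFA_stmt := (HFB_proof F_FLA F_FLD F_PGV).1
theorem F_FLB : FLB_stmt := (HFB_proof F_FLA F_FLD F_PGV).2
theorem F_HFM : HFM_stmt := HFM_proof F_MPG F_PGV
theorem F_HFG : HFG_stmt := HFG_proof F_GRW F_FLA F_PGV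
theorem F_FLG : FLG_stmt := FLG_proof F_GRW F_PGV
theorem F_RCD : RCD_stmt := RCD_proof F_FLC F_PGV

end Pool.Agent.VQ

namespace Pool.Agent.VQE

theorem F_FFL : FFL_stmt := VQ.FFL_proof VQ.F_FLA VQ.F_MPG VQ.F_PGV

end Pool.Agent.VQE

namespace Pool.Agent.VN

open Pool.Agent.VQ

theorem F_NHG : NHG_stmt := NHG_proof F_GRW F_FLA
theorem F_FLGN : FLGN_stmt := FLGN_proof F_GRW

end Pool.Agent.VN

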