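import Pool.Agent.helper40.VQ.VCD
import Pool.Agent.helper91.VQ.GFL
import Pool.Agent.helper77.VQ.LNP
import Pool.Agent.helper68.VQ.SAE
import Pool.Agent.helper23.VQ.DTN
import Pool.Agent.helper67.VQ.YPE
import Pool.Agent.helper7.VQ.LDT
import Pool.Agent.helper7.VQ.LVP
import Pool.Agent.helper2.VQ.EX1
import Pool.Agent.helper23.VQ.EXT
import Pool.Agent.helper31.VQ.FX4
import Pool.Agent.helper76.VQ.FLU
import Pool.Agent.helper47.VQ.IDG
import Pool.Agent.helper96.VQ.ROT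
import Pool.Agent.helper76.VQ.FLA
import Pool.Agent.helper36.VQ.FLD
import Pool.Agent.helper76.VQ.LPZ
import Pool.Agent.helper27.VQ.TAN
import Pool.Agent.helper7.VQ.LMP
import Pool.Agent.helper89.VQ.HAC
import Pool.Agent.helper73.VQ.VUG
import Pool.Agent.helper73.VQ.VDG
import Pool.Agent.helper62.VQE.PZE
import Pool.Agent.helper76.VQE.PZC
import Pool.Agent.helper80.VQ.TRZ
import Pool.Agent.helper80.VQ.MPG
import Pool.Agent.helper80.VN.GL

/-!
# MP_07c750_an, project VQ, block FL: the closed rows (general form `OKG`)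
-/

set_option autoImplicit false

namespace Pool.Agent.VQ

theorem F_GFL : GFL_stmt := GFL_proof
theorem F_LNP : LNP_stmt := LNP_proof
theorem F_SAE : SAE_stmt := SAE_proof
theorem F_DTN : DTN_stmt := DTN_proof
theorem F_YPE : YPE_stmt := YPE_proof F_LNP
theorem F_LDT : LDT_stmt := LDT_proof
theorem F_LVP : LVP_stmt := LVP_proof F_LDT
theorem F_VUG : VUG_stmt := VUG_proof VCD_proof
theorem F_VDG : VDG_stmt := VDG_proof VCD_proof
theorem F_EX1 : EX1_stmt := EX1_proof VCD_proof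
theorem F_EXT : EXT_stmt := EXT_proof F_EX1 F_VUG
theorem F_FX4 : FX4_stmt := FX4_proof F_GFL
theorem F_FLU : FLU_stmt := FLU_proof F_EXT F_FX4
theorem F_IDG : IDG_stmt := IDG_proof F_EXT F_FX4 F_YPE F_DTN F_SAE F_VUG
theorem F_ROT : ROT_stmt := ROT_proof VCD_proof
theorem F_FLA : FLA_stmt := FLA_proof F_FLU F_ROT F_VUG
theorem F_FLD : FLD_stmt := FLD_proof F_VUG
theorem F_LPZ : LPZ_stmt := LPZ_proof F_VUG VQE.PZE_proof VQE.PZC_proof
theorem F_TAN : TAN_stmt := TAN_proof F_VDG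
theorem F_TRZ : TRZ_stmt := TRZ_proof F_TAN
theorem F_LMP : LMP_stmt := LMP_proof
theorem F_HAC : HAC_stmt := HAC_proof F_LMP
theorem F_MPG : MPG_stmt := MPG_proof F_FLU F_FLA F_LVP F_TRZ F_LMP F_HAC

end Pool.Agent.VQ

namespace Pool.Agent.VN

open Pool.Agent.VQ

theorem F_NHM : NHM_stmt := NHM_proof F_MPG
theorem F_NHA : NHA_stmt := NHA_proof F_FLA F_FLD
theorem F_IDYN : IDYN_stmt := IDYN_proof F_IDG
theorem F_FLBN : FLBN_stmt := FLBN_proof F_FLA

end Pool.Agent.VN
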