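import Pool.Agent.helper80.VQ.SpecFL

/-!
# Row vq:FFL (MP_07c750_an, project VQ, block FL)
-/

set_option autoImplicit false

open scoped MatrixGroups ContDiff Topology UpperHalfPlane ComplexConjugate ENNReal
open UpperHalfPlane MeasureTheory Filter Set

namespace Pool.Agent.VQ

open Pool.Agent.RS
open Pool.Agent.VQE (nm)

theorem FFL_aux (hFLA : FLA_stmt) {Γ : Subgroup SL(2, ℝ)} {e : ℝ} {B : ℕ → ℝ} {D : Dyn} (hD : OKG Γ e B D) {E : ℝ} (hE : |E| ≤ e) :
    VQE.Flw (rho D.U E) (fun g => -(kap D.U E g) / 2) (D.fl E) := by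
  obtain ⟨h1, h2, h3, h4⟩ := hFLA Γ e B D hD E hE
  refine ⟨hD.fl0 E, h1, ?_, ?_, ?_⟩
  · exact hD.cfl.comp_continuous (Continuous.prodMk continuous_const (Continuous.prodMk continuous_fst continuous_snd)) (fun g => hE)
  · intro i t g
    refine (hD.dfl E t g hE i 0).congr_deriv ?_
    simp only [XX, A0, K0, Matrix.mul_apply, Fin.sum_univ_two, Matrix.add_apply, Matrix.smul_apply, Matrix.of_apply, Matrix.cons_val', Matrix.cons_val_zero,
      Matrix.cons_val_one, Matrix.empty_val', Matrix.cons_val_fin_one, smul_eq_mul]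
    ring
  · intro i t g
    refine (hD.dfl E t g hE i 1).congr_deriv ?_
    simp only [XX, A0, K0, Matrix.mul_apply, Fin.sum_univ_two, Matrix.add_apply, Matrix.smul_apply, Matrix.of_apply, Matrix.cons_val', Matrix.cons_val_zero,
      Matrix.cons_val_one, Matrix.empty_val', Matrix.cons_val_fin_one, smul_eq_mul]
    ring

theorem FFL_proof (hFLA : FLA_stmt) (hMPG : MPG_stmt) (hPGV : PGV_stmt) : VQE.FFL_stmt := by
  intro Γ hΓ
  refine ⟨1 / 10, by norm_num, fun B D hD => ?_⟩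
  have hG := hPGV.2.1 Γ (1 / 10) B D hD le_rfl
  have h0 : |(0 : ℝ)| ≤ 1 / 8 := by norm_num
  refine ⟨?_, fun E hE => FFL_aux hFLA hG (hE.trans (by norm_num))⟩
  obtain ⟨h1, h2, h3, h4⟩ := hFLA Γ (1 / 8) (Bx B) D hG 0 h0
  exact { FFL_aux hFLA hG h0 with inv := h2, mp := fun t => hMPG Γ (1 / 8) (Bx B) D hG 0 t h0 }

end Pool.Agent.VQ
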